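import Pool.Agent.SPS65.Hall

/-!
# Embedding a schedule into a component with few backward arcs
-/

set_option autoImplicit false

namespace SPS65

open Finset Relation SPC65
open scoped Classical

variable {V W : Type}

theorem Sch.basic {E : W → W → Prop} {bad : ℕ → Finset ℕ} {D h : ℕ} {s : ℕ} {F F' B : Finset W} {g : W → ℕ}
    (hS : Sch E bad D h s F F' B g) :
    s ≤ h ∧ F' ⊆ F ∧ B ⊆ F ∧ (∀ y ∈ B, s ≤ g y) ∧ Set.InjOn g (B : Set W) := by
  induction hS with
  | nil s F g hs => exact ⟨hs, subset_rfl, by simp, by simp, by simp⟩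
  | ind s ℓ F U F' B g hU hc hD _ ih =>
    obtain ⟨h1, h2, h3, h4, h5⟩ := ih
    exact ⟨by omega, h2.trans sdiff_subset, h3.trans sdiff_subset, fun y hy => by have := h4 y hy; omega, h5⟩
  | path s ℓ F F' B g c hl hP hg hb _ ih =>
    obtain ⟨h1, h2, h3, h4, h5⟩ := ih
    refine ⟨by omega, h2.trans sdiff_subset, ?_, ?_, ?_⟩
    · intro y hy
      rcases mem_union.1 hy with hy | hy
      · exact sdiff_subset (h3 hy)
      · obtain ⟨i, hi, rfl⟩ := mem_image.1 hy
        exact hP.1 i (mem_range.1 hi)
    · intro y hy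
      rcases mem_union.1 hy with hy | hy
      · have := h4 y hy
        omega
      · obtain ⟨i, hi, rfl⟩ := mem_image.1 hy
        rw [hg i (mem_range.1 hi)]
        omega
    · intro x hx y hy hxy
      rcases mem_union.1 (mem_coe.1 hx) with hx | hx <;> rcases mem_union.1 (mem_coe.1 hy) with hy | hy
      · exact h5 hx hy hxy
      · obtain ⟨i, hi, rfl⟩ := mem_image.1 hy
        have h6 := h4 x hx
        rw [hxy, hg i (mem_range.1 hi)] at h6
        have := mem_range.1 hi
        omega
      · obtain ⟨i, hi, rfl⟩ := mem_image.1 hx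
        have h6 := h4 y hy
        rw [← hxy, hg i (mem_range.1 hi)] at h6
        have := mem_range.1 hi
        omega
      · obtain ⟨i, hi, rfl⟩ := mem_image.1 hx
        obtain ⟨j, hj, rfl⟩ := mem_image.1 hy
        rw [hg i (mem_range.1 hi), hg j (mem_range.1 hj)] at hxy
        have : i = j := by omega
        rw [this]

/-- the positions for an independent block -/
theorem block {E : W → W → Prop} {bad : ℕ → Finset ℕ} {Δ m : ℕ}
    (hdeg : ∀ w, ∀ S : Finset W, (∀ v ∈ S, E v w ∨ E w v) → S.card ≤ Δ)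
    (hbs : ∀ i j, j ∈ bad i ↔ i ∈ bad j) (hbm : ∀ i, (bad i).card ≤ m)
    {s ℓ : ℕ} {U B P : Finset W} {g f₀ : W → ℕ} (hc : U.card ≤ ℓ) (hD : 2 * (Δ * m) ≤ ℓ)
    (hPB : Disjoint P B) (hB : ∀ y ∈ B, s + ℓ ≤ g y) (hgB : Set.InjOn g (B : Set W))
    (hf : Set.InjOn f₀ (P : Set W)) (hfs : ∀ u ∈ P, f₀ u < s) :
    ∃ f₁ : W → ℕ, Set.InjOn f₁ (U : Set W) ∧ ∀ w ∈ U, (s ≤ f₁ w ∧ f₁ w < s + ℓ) ∧
      (∀ u ∈ P, E u w → f₁ w ∉ bad (f₀ u)) ∧ ∀ y ∈ B, E w y → f₁ w ∉ bad (g y) := by
  set pos : W → ℕ := fun v => if v ∈ B then g v else f₀ v with hpos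
  have hposB : ∀ v ∈ B, pos v = g v := fun v hv => by simp [hpos, hv]
  have hposP : ∀ v ∈ P, pos v = f₀ v := fun v hv => by
    have : v ∉ B := fun h => disjoint_left.1 hPB hv h
    simp [hpos, this]
  have hinj : Set.InjOn pos ((P ∪ B : Finset W) : Set W) := by
    intro x hx y hy hxy
    rcases mem_union.1 (mem_coe.1 hx) with hx | hx <;> rcases mem_union.1 (mem_coe.1 hy) with hy | hy
    · rw [hposP x hx, hposP y hy] at hxy
      exact hf hx hy hxy
    · rw [hposP x hx, hposB y hy] at hxy
      have h1 := hfs x hx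
      have h2 := hB y hy
      omega
    · rw [hposB x hx, hposP y hy] at hxy
      have h1 := hfs y hy
      have h2 := hB x hx
      omega
    · rw [hposB x hx, hposB y hy] at hxy
      exact hgB hx hy hxy
  set X : W → Finset ℕ := fun w =>
    ((P ∪ B).filter (fun v => E v w ∨ E w v)).biUnion (fun v => bad (pos v)) with hX
  have h1 : ∀ w ∈ U, ((Ico s (s + ℓ)).filter (fun p => p ∈ X w)).card ≤ Δ * m := by
    intro w _
    refine (card_le_card (fun p hp => (mem_filter.1 hp).2) : _ ≤ (X w).card).trans ?_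
    refine (card_biUnion_le_card_mul _ _ m (fun v _ => hbm _)).trans ?_
    exact Nat.mul_le_mul_right m (hdeg w _ (fun v hv => (mem_filter.1 hv).2))
  have h2 : ∀ p ∈ Ico s (s + ℓ), (U.filter (fun w => p ∈ X w)).card ≤ Δ * m := by
    intro p _
    have hsub : U.filter (fun w => p ∈ X w) ⊆
        ((P ∪ B).filter (fun v => pos v ∈ bad p)).biUnion (fun v => U.filter (fun w => E w v ∨ E v w)) := by
      intro w hw
      obtain ⟨hwU, hw⟩ := mem_filter.1 hw
      obtain ⟨v, hv, hp⟩ := mem_biUnion.1 hw
      obtain ⟨hv1, hv2⟩ := mem_filter.1 hv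
      exact mem_biUnion.2 ⟨v, mem_filter.2 ⟨hv1, (hbs _ _).1 hp⟩, mem_filter.2 ⟨hwU, hv2.symm⟩⟩
    refine (card_le_card hsub).trans ?_
    refine (card_biUnion_le_card_mul _ _ Δ (fun v _ => hdeg v _ (fun w hw => (mem_filter.1 hw).2))).trans ?_
    rw [mul_comm]
    refine Nat.mul_le_mul_left Δ ?_
    refine (card_le_card_of_injOn pos (fun v hv => ?_) (fun x hx y hy hxy => ?_)).trans (hbm p)
    · exact (mem_filter.1 (mem_coe.1 hv)).2
    · exact hinj (mem_coe.2 (mem_filter.1 (mem_coe.1 hx)).1) (mem_coe.2 (mem_filter.1 (mem_coe.1 hy)).1) hxy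
  obtain ⟨f₁, h3, h4⟩ := hall U (Ico s (s + ℓ)) X (Δ * m) h1 h2 (by simpa using hc) (by simpa using hD)
  refine ⟨f₁, h3, fun w hw => ?_⟩
  obtain ⟨h5, h6⟩ := h4 w hw
  refine ⟨mem_Ico.1 h5, fun u hu huw hb => h6 ?_, fun y hy hwy hb => h6 ?_⟩
  · exact mem_biUnion.2 ⟨u, mem_filter.2 ⟨mem_union_left _ hu, Or.inl huw⟩, by rw [hposP u hu]; exact hb⟩
  · exact mem_biUnion.2 ⟨y, mem_filter.2 ⟨mem_union_right _ hy, Or.inr hwy⟩, by rw [hposB y hy]; exact hb⟩

theorem sch_emb {E : W → W → Prop} {bad : ℕ → Finset ℕ} {Δ m h : ℕ}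
    (hdeg : ∀ w, ∀ S : Finset W, (∀ v ∈ S, E v w ∨ E w v) → S.card ≤ Δ) (hE : ∀ a b, E a b → ¬ E b a)
    (hbs : ∀ i j, j ∈ bad i ↔ i ∈ bad j) (hbm : ∀ i, (bad i).card ≤ m) (hbc : ∀ i, i + 1 ∉ bad i)
    {s : ℕ} {F F' B : Finset W} {g : W → ℕ} (hS : Sch E bad (Δ * m) h s F F' B g) :
    ∀ (P : Finset W) (f₀ : W → ℕ), Disjoint P F → Set.InjOn f₀ (P : Set W) → (∀ u ∈ P, f₀ u < s) →
      (∀ u ∈ P, ∀ y ∈ B, E u y → g y ∉ bad (f₀ u)) →
      ∃ f : W → ℕ, (∀ u ∈ P, f u = f₀ u) ∧ (∀ w ∈ F \ F', s ≤ f w ∧ f w < h) ∧ Set.InjOn f (F \ F' : Finset W) ∧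
        ∀ u ∈ P ∪ (F \ F'), ∀ w ∈ F \ F', E u w → f u < f w ∧ f w ∉ bad (f u) := by
  induction hS with
  | nil s F g hs =>
    intro P f₀ _ _ _ _
    exact ⟨f₀, fun u _ => rfl, by simp, by simp, by simp⟩
  | ind s ℓ F U F' B g hU hc hD hS ih =>
    intro P f₀ hPF hf hfs hPB
    obtain ⟨b1, b2, b3, b4, b5⟩ := hS.basic
    have hUF : U ⊆ F := fun w hw => (mem_filter.1 (hU hw)).1
    have hPU : ∀ u ∈ P, u ∉ U := fun u hu h => disjoint_left.1 hPF hu (hUF h)
    obtain ⟨f₁, c1, c2⟩ := block (E := E) hdeg hbs hbm (U := U) hc hD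
      (disjoint_left.2 (fun u hu h => disjoint_left.1 hPF hu (sdiff_subset (b3 h)))) b4 b5 hf hfs
    set f' : W → ℕ := fun w => if w ∈ U then f₁ w else f₀ w with hf'
    have hfU : ∀ w ∈ U, f' w = f₁ w := fun w hw => by simp [hf', hw]
    have hfP : ∀ w ∈ P, f' w = f₀ w := fun w hw => by simp [hf', hPU w hw]
    obtain ⟨f, d1, d2, d3, d4⟩ := ih (P ∪ U) f' (by
        rw [disjoint_left]
        intro u hu h
        rcases mem_union.1 hu with hu | hu
        · exact disjoint_left.1 hPF hu (sdiff_subset h)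
        · exact (mem_sdiff.1 h).2 hu) (by
        intro x hx y hy hxy
        rcases mem_union.1 (mem_coe.1 hx) with hx | hx <;> rcases mem_union.1 (mem_coe.1 hy) with hy | hy
        · rw [hfP x hx, hfP y hy] at hxy
          exact hf hx hy hxy
        · rw [hfP x hx, hfU y hy] at hxy
          have h1 := hfs x hx
          have h2 := (c2 y hy).1
          omega
        · rw [hfU x hx, hfP y hy] at hxy
          have h1 := hfs y hy
          have h2 := (c2 x hx).1
          omega
        · rw [hfU x hx, hfU y hy] at hxy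
          exact c1 hx hy hxy) (by
        intro u hu
        rcases mem_union.1 hu with hu | hu
        · rw [hfP u hu]
          have := hfs u hu
          omega
        · rw [hfU u hu]
          exact (c2 u hu).1.2) (by
        intro u hu y hy huy
        rcases mem_union.1 hu with hu | hu
        · rw [hfP u hu]
          exact hPB u hu y hy huy
        · rw [hfU u hu, hbs]
          exact (c2 u hu).2.2 y hy huy)
    have e1 : ∀ u ∈ P, f u = f₀ u := fun u hu => (d1 u (mem_union_left _ hu)).trans (hfP u hu)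
    have e2 : ∀ w ∈ U, f w = f₁ w := fun u hu => (d1 u (mem_union_right _ hu)).trans (hfU u hu)
    have key : ∀ w ∈ F \ F', w ∈ U ∨ w ∈ (F \ U) \ F' := by
      intro w hw
      obtain ⟨h1, h2⟩ := mem_sdiff.1 hw
      by_cases h3 : w ∈ U
      · exact Or.inl h3
      · exact Or.inr (mem_sdiff.2 ⟨mem_sdiff.2 ⟨h1, h3⟩, h2⟩)
    refine ⟨f, e1, ?_, ?_, ?_⟩
    · intro w hw
      rcases key w hw with h | h
      · rw [e2 w h]
        have := (c2 w h).1
        omega
      · have := d2 w h
        omega
    · intro x hx y hy hxy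
      rcases key x (mem_coe.1 hx) with hx | hx <;> rcases key y (mem_coe.1 hy) with hy | hy
      · rw [e2 x hx, e2 y hy] at hxy
        exact c1 hx hy hxy
      · rw [e2 x hx] at hxy
        have h1 := (c2 x hx).1
        have h2 := d2 y hy
        omega
      · rw [e2 y hy] at hxy
        have h1 := (c2 y hy).1
        have h2 := d2 x hx
        omega
      · exact d3 (mem_coe.2 hx) (mem_coe.2 hy) hxy
    · intro u hu w hw huw
      rcases key w hw with h | h
      · have hsrc := (mem_filter.1 (hU h)).2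
        have huP : u ∈ P := by
          rcases mem_union.1 hu with hu | hu
          · exact hu
          · exfalso
            have : u ∈ inn E F w := mem_inn.2 ⟨sdiff_subset hu, huw⟩
            rw [hsrc] at this
            exact notMem_empty _ this
        rw [e1 u huP, e2 w h]
        refine ⟨?_, (c2 w h).2.1 u huP huw⟩
        have h1 := hfs u huP
        have h2 := (c2 w h).1
        omega
      · refine d4 u ?_ w h huw
        rcases mem_union.1 hu with hu | hu
        · exact mem_union_left _ (mem_union_left _ hu)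
        · rcases key u hu with hu | hu
          · exact mem_union_left _ (mem_union_right _ hu)
          · exact mem_union_right _ hu
  | path s ℓ F F' B g c hl hP hg hb hS ih =>
    intro P f₀ hPF hf hfs hPB
    obtain ⟨b1, b2, b3, b4, b5⟩ := hS.basic
    set I : Finset W := (range ℓ).image c with hI
    have hIF : I ⊆ F := by
      intro w hw
      obtain ⟨i, hi, rfl⟩ := mem_image.1 hw
      exact hP.1 i (mem_range.1 hi)
    have hgI : ∀ w ∈ I, s ≤ g w ∧ g w < s + ℓ := by
      intro w hw
      obtain ⟨i, hi, rfl⟩ := mem_image.1 hw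
      rw [hg i (mem_range.1 hi)]
      have := mem_range.1 hi
      omega
    have hinjI : Set.InjOn g (I : Set W) := by
      intro x hx y hy hxy
      obtain ⟨i, hi, rfl⟩ := mem_image.1 (mem_coe.1 hx)
      obtain ⟨j, hj, rfl⟩ := mem_image.1 (mem_coe.1 hy)
      rw [hg i (mem_range.1 hi), hg j (mem_range.1 hj)] at hxy
      have : i = j := by omega
      rw [this]
    have hPI : ∀ u ∈ P, u ∉ I := fun u hu h => disjoint_left.1 hPF hu (hIF h)
    set f' : W → ℕ := fun w => if w ∈ I then g w else f₀ w with hf'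
    have hfI : ∀ w ∈ I, f' w = g w := fun w hw => by simp [hf', hw]
    have hfP : ∀ w ∈ P, f' w = f₀ w := fun w hw => by simp [hf', hPI w hw]
    obtain ⟨f, d1, d2, d3, d4⟩ := ih (P ∪ I) f' (by
        rw [disjoint_left]
        intro u hu h
        rcases mem_union.1 hu with hu | hu
        · exact disjoint_left.1 hPF hu (sdiff_subset h)
        · exact (mem_sdiff.1 h).2 hu) (by
        intro x hx y hy hxy
        rcases mem_union.1 (mem_coe.1 hx) with hx | hx <;> rcases mem_union.1 (mem_coe.1 hy) with hy | hy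
        · rw [hfP x hx, hfP y hy] at hxy
          exact hf hx hy hxy
        · rw [hfP x hx, hfI y hy] at hxy
          have h1 := hfs x hx
          have h2 := hgI y hy
          omega
        · rw [hfI x hx, hfP y hy] at hxy
          have h1 := hfs y hy
          have h2 := hgI x hx
          omega
        · rw [hfI x hx, hfI y hy] at hxy
          exact hinjI hx hy hxy) (by
        intro u hu
        rcases mem_union.1 hu with hu | hu
        · rw [hfP u hu]
          have := hfs u hu
          omega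
        · rw [hfI u hu]
          exact (hgI u hu).2) (by
        intro u hu y hy huy
        rcases mem_union.1 hu with hu | hu
        · rw [hfP u hu]
          exact hPB u hu y (mem_union_left _ hy) huy
        · rw [hfI u hu]
          obtain ⟨i, hi, rfl⟩ := mem_image.1 hu
          rw [hg i (mem_range.1 hi)]
          exact hb i (mem_range.1 hi) y hy huy)
    have e1 : ∀ u ∈ P, f u = f₀ u := fun u hu => (d1 u (mem_union_left _ hu)).trans (hfP u hu)
    have e2 : ∀ w ∈ I, f w = g w := fun u hu => (d1 u (mem_union_right _ hu)).trans (hfI u hu)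
    have key : ∀ w ∈ F \ F', w ∈ I ∨ w ∈ (F \ I) \ F' := by
      intro w hw
      obtain ⟨h1, h2⟩ := mem_sdiff.1 hw
      by_cases h3 : w ∈ I
      · exact Or.inl h3
      · exact Or.inr (mem_sdiff.2 ⟨mem_sdiff.2 ⟨h1, h3⟩, h2⟩)
    refine ⟨f, e1, ?_, ?_, ?_⟩
    · intro w hw
      rcases key w hw with h | h
      · rw [e2 w h]
        have := hgI w h
        omega
      · have := d2 w h
        omega
    · intro x hx y hy hxy
      rcases key x (mem_coe.1 hx) with hx | hx <;> rcases key y (mem_coe.1 hy) with hy | hy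
      · rw [e2 x hx, e2 y hy] at hxy
        exact hinjI hx hy hxy
      · rw [e2 x hx] at hxy
        have h1 := hgI x hx
        have h2 := d2 y hy
        omega
      · rw [e2 y hy] at hxy
        have h1 := hgI y hy
        have h2 := d2 x hx
        omega
      · exact d3 (mem_coe.2 hx) (mem_coe.2 hy) hxy
    · intro u hu w hw huw
      rcases key w hw with h | h
      · obtain ⟨i, hi, rfl⟩ := mem_image.1 h
        have hi' := mem_range.1 hi
        rcases mem_union.1 hu with hu | hu
        · rw [e1 u hu, e2 _ h]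
          refine ⟨?_, hPB u hu _ (mem_union_right _ h) huw⟩
          have h1 := hfs u hu
          have h2 := hgI _ h
          omega
        · have hu' : u ∈ inn E F (c i) := mem_inn.2 ⟨sdiff_subset hu, huw⟩
          rcases Nat.eq_zero_or_pos i with h0 | h0
          · subst h0
            rw [hP.2.1] at hu'
            exact absurd hu' (notMem_empty _)
          · obtain ⟨j, rfl⟩ : ∃ j, i = j + 1 := ⟨i - 1, by omega⟩
            rw [hP.2.2 j hi', mem_singleton] at hu'
            subst hu'
            have hj : c j ∈ I := mem_image.2 ⟨j, mem_range.2 (by omega), rfl⟩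
            rw [e2 _ h, e2 _ hj, hg j (by omega), hg (j + 1) hi']
            exact ⟨by omega, hbc (s + j)⟩
      · refine d4 u ?_ w h huw
        rcases mem_union.1 hu with hu | hu
        · exact mem_union_left _ (mem_union_left _ hu)
        · rcases key u hu with hu | hu
          · exact mem_union_left _ (mem_union_right _ hu)
          · exact mem_union_right _ hu

end SPS65
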