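import Pool.Agent.SPS65.Stage2
import Pool.Agent.SPS65.Emb

/-!
# Tournaments with few backward arcs: the embedding in one component
-/

set_option autoImplicit false

namespace SPS65

open Finset Relation SPC65
open scoped Classical

variable {V W : Type} {E : W → W → Prop}

theorem phi_le_pot {b L Cap : ℕ} {F₂ F : Finset W} (hF : F ⊆ F₂) :
    PhiC E b L Cap F ≤ Pot L (Aset E b F₂) F := by
  unfold PhiC Pot
  refine (min_le_right _ _).trans (Nat.add_le_add_right (card_le_card ?_) _)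
  intro x hx
  refine mem_filter.2 ⟨?_, aset_mono hF hx⟩
  unfold Aset at hx
  exact (mem_filter.1 hx).1

theorem phi_mono {b L Cap : ℕ} {F F' : Finset W} (h : F' ⊆ F) : PhiC E b L Cap F' ≤ PhiC E b L Cap F := by
  unfold PhiC
  exact min_le_min_left Cap (Nat.add_le_add (card_le_card (aset_mono h)) (min_le_min_right L (card_le_card h)))

/-- with few sources the potential is below the cap -/
theorem phi_eq {b Δ L Cap : ℕ} (hE : ∀ a b, E a b → ¬ E b a) (hG : (SimpleGraph.fromRel E).IsAcyclic)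
    (hin : ∀ w, ∀ S : Finset W, (∀ v ∈ S, E v w) → S.card ≤ Δ)
    (hC : Cap = 4 * b * (5 * b * (Δ + 1) ^ (5 * b)) + L) {F : Finset W} (hF : F.Nonempty)
    (h : (src E F).card < 4 * b) : Pot L (Aset E b F) F = PhiC E b L Cap F := by
  have h1 := mu_lt hE hG hF
  have h2 := aset_card (b := b) hin F
  have h3 : mu E F * (5 * b * (Δ + 1) ^ (5 * b)) ≤ 4 * b * (5 * b * (Δ + 1) ^ (5 * b)) :=
    Nat.mul_le_mul_right _ (by omega)
  have h4 : F.filter (fun u => u ∈ Aset E b F) = Aset E b F := by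
    ext x
    rw [mem_filter]
    refine ⟨fun h => h.2, fun h => ⟨?_, h⟩⟩
    unfold Aset at h
    exact (mem_filter.1 h).1
  have h5 := min_le_right F.card L
  unfold Pot PhiC
  rw [h4]
  exact (min_eq_right (by omega)).symm

theorem claim1 {bad : ℕ → Finset ℕ} {b Δ m h L Cap : ℕ} (hE : ∀ a b, E a b → ¬ E b a)
    (hG : (SimpleGraph.fromRel E).IsAcyclic) {ht : W → ℕ} (hht : ∀ a b, E a b → ht a < ht b)
    (hin : ∀ w, ∀ S : Finset W, (∀ v ∈ S, E v w) → S.card ≤ Δ)
    (hout : ∀ u, ∀ S : Finset W, (∀ v ∈ S, E u v) → S.card ≤ Δ)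
    (hbm : ∀ i, (bad i).card ≤ m) (hbc : ∀ i, i + 1 ∉ bad i) (hb : 2 * (Δ * m) ≤ b) (hb1 : 1 ≤ b)
    (hL : L = 5 * b * (5 * b * (Δ + 1) ^ (5 * b))) (hC : Cap = 4 * b * (5 * b * (Δ + 1) ^ (5 * b)) + L) :
    ∀ r s : ℕ, ∀ F : Finset W, s + r = h → b ≤ r → ∃ (F' B : Finset W) (g : W → ℕ), Upper E F F' ∧
      Sch E bad (Δ * m) h s F F' B g ∧
      (F' = ∅ ∨ r + 3 * b * PhiC E b L Cap F' ≤ (F \ F').card + 3 * b * PhiC E b L Cap F) := by
  intro r
  induction r using Nat.strong_induction_on with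
  | _ r ih =>
    intro s F hs hr
    rcases F.eq_empty_or_nonempty with hF0 | hF0
    · subst hF0
      exact ⟨∅, ∅, fun _ => 0, upper_refl ∅, Sch.nil s ∅ _ (by omega), Or.inl rfl⟩
    by_cases hmany : 4 * b ≤ (src E F).card
    · by_cases hr3 : r < 3 * b
      · obtain ⟨U, hU1, hU2⟩ := exists_subset_card_eq (show r ≤ (src E F).card by omega)
        have hUF : U ⊆ F := hU1.trans (filter_subset _ _)
        have hup := upper_src hU1
        have hp := Nat.mul_le_mul_left (3 * b) (phi_mono (E := E) (b := b) (L := L) (Cap := Cap) hup.1)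
        refine ⟨F \ U, ∅, fun _ => 0, hup, Sch.ind s r F U _ ∅ _ hU1 hU2.le (by omega)
          (Sch.nil _ _ _ (by omega)), Or.inr ?_⟩
        rw [Finset.sdiff_sdiff_eq_self hUF]
        omega
      · obtain ⟨U, hU1, hU2⟩ := exists_subset_card_eq (show b ≤ (src E F).card by omega)
        have hUF : U ⊆ F := hU1.trans (filter_subset _ _)
        have hup := upper_src hU1
        have hp := Nat.mul_le_mul_left (3 * b) (phi_mono (E := E) (b := b) (L := L) (Cap := Cap) hup.1)
        obtain ⟨F', B, g, g1, g2, g3⟩ := ih (r - b) (by omega) (s + b) (F \ U) (by omega) (by omega)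
        refine ⟨F', B, g, upper_trans hup g1, Sch.ind s b F U F' B g hU1 hU2.le (by omega) g2, ?_⟩
        rcases g3 with g3 | g3
        · exact Or.inl g3
        · right
          have h3 := card_split hup.1 g1.1
          rw [Finset.sdiff_sdiff_eq_self hUF] at h3
          omega
    · have hgood : Good E bad b L (Aset E b F) s F ∅ (fun _ => 0) := by
        rcases dich hb1 hht hout hL (Subset.refl F) with h1 | ⟨c, hc⟩
        · exact good_of h1
        · exact Or.inr (Or.inr (Or.inr ⟨c, fp_mono hc (by omega), fun u hu => absurd hu (notMem_empty u)⟩))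
      obtain ⟨F', B, g, g1, g2, -, g3⟩ := claim2 hE hG hht hin hout hbm hbc hb hb1 hL (F₂ := F) rfl r s F ∅
        (fun _ => 0) hs hr (Subset.refl F) (empty_subset _) (disjoint_empty_left _) hgood
      refine ⟨F', B, g, g1, g2, ?_⟩
      rcases g3 with g3 | g3
      · exact Or.inl g3
      · right
        rw [phi_eq hE hG hin hC hF0 (not_le.1 hmany)] at g3
        have h4 := Nat.mul_le_mul_left (3 * b) (phi_le_pot (E := E) (b := b) (L := L) (Cap := Cap) g1.1)
        omega

/-- the components with fewer than `b` vertices -/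
theorem inner_small {R : V → V → Prop} {b Δ : ℕ} (hT : AE32.Tour R) (hE : ∀ a b, E a b → ¬ E b a)
    (hG : (SimpleGraph.fromRel E).IsAcyclic) [Nonempty V] {ht : W → ℕ} (hht : ∀ a b, E a b → ht a < ht b)
    (hin : ∀ w, ∀ S : Finset W, (∀ v ∈ S, E v w) → S.card ≤ Δ)
    (hout : ∀ u, ∀ S : Finset W, (∀ v ∈ S, E u v) → S.card ≤ Δ) (hb1 : 1 ≤ b)
    {L Cap : ℕ} (hL : L = 5 * b * (5 * b * (Δ + 1) ^ (5 * b))) (hC : Cap = 4 * b * (5 * b * (Δ + 1) ^ (5 * b)) + L)
    {K : Finset V} (hK : K.card < b) (F : Finset W) :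
    ∃ F', Upper E F F' ∧ Emb R E (F \ F') K ∧
      (F' = ∅ ∨ K.card + 3 * b * PhiC E b L Cap F' ≤ (F \ F').card + 3 * b * PhiC E b L Cap F) := by
  by_cases h1 : K.card ≤ (src E F).card
  · obtain ⟨U, hU1, hU2⟩ := exists_subset_card_eq h1
    have hUF : U ⊆ F := hU1.trans (filter_subset _ _)
    have hup := upper_src hU1
    have hp := Nat.mul_le_mul_left (3 * b) (phi_mono (E := E) (b := b) (L := L) (Cap := Cap) hup.1)
    refine ⟨F \ U, hup, ?_, Or.inr ?_⟩
    · rw [Finset.sdiff_sdiff_eq_self hUF]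
      exact emb_src hU1 hU2.le
    · rw [Finset.sdiff_sdiff_eq_self hUF]
      omega
  · rcases F.eq_empty_or_nonempty with hF0 | hF0
    · subst hF0
      exact ⟨∅, upper_refl ∅, ⟨fun _ => Classical.arbitrary V, by simp, by simp, by simp⟩, Or.inl rfl⟩
    have hone : ∀ u ∈ src E F, (u ∈ Aset E b F ∨ F.card ≤ L) → ∃ F', Upper E F F' ∧ Emb R E (F \ F') K ∧
      (F' = ∅ ∨ K.card + 3 * b * PhiC E b L Cap F' ≤ (F \ F').card + 3 * b * PhiC E b L Cap F) := by
      intro u hu hu'
      have huF : u ∈ F := (mem_filter.1 hu).1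
      have hup := upper_src (singleton_subset_iff.2 hu)
      have h2 : 0 < (src E F).card := card_pos.2 ⟨u, hu⟩
      refine ⟨F \ {u}, hup, ?_, Or.inr ?_⟩
      · rw [Finset.sdiff_sdiff_eq_self (singleton_subset_iff.2 huF)]
        exact emb_src (singleton_subset_iff.2 hu) (by rw [card_singleton]; omega)
      · rw [Finset.sdiff_sdiff_eq_self (singleton_subset_iff.2 huF), card_singleton,
          ← phi_eq hE hG hin hC hF0 (by omega)]
        have h3 := pot_erase (L := L) (A := Aset E b F) huF hu'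
        have h4 := phi_le_pot (E := E) (b := b) (L := L) (Cap := Cap) (F₂ := F) hup.1
        have h5 := Nat.mul_le_mul_left (3 * b) (Nat.add_le_add_right h4 1)
        have h6 := Nat.mul_le_mul_left (3 * b) h3
        rw [Nat.mul_add, Nat.mul_one] at h5
        omega
    rcases dich hb1 hht hout hL (Subset.refl F) with (h2 | ⟨u, hu, hu'⟩ | h2) | ⟨c, hc⟩
    · omega
    · exact hone u hu (Or.inl hu')
    · obtain ⟨u, hu⟩ := exists_src hE hG hF0
      exact hone u hu (Or.inr h2)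
    · obtain ⟨p1, p2, p3⟩ := emb_path hT hht (F := F) (K := K) (c := c) (fun i hi => hc.1 i (by omega)) hc.2.1
        (fun i hi => hc.2.2 i (by omega))
      obtain ⟨U, hU⟩ : ∃ U, U = (range K.card).image c := ⟨_, rfl⟩
      rw [← hU] at p1 p2 p3
      have hUF : U ⊆ F := by
        rw [hU]
        intro v hv
        obtain ⟨i, hi, rfl⟩ := mem_image.1 hv
        rw [mem_range] at hi
        exact hc.1 i (by omega)
      have hp := Nat.mul_le_mul_left (3 * b) (phi_mono (E := E) (b := b) (L := L) (Cap := Cap) p2.1)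
      refine ⟨F \ U, p2, ?_, Or.inr ?_⟩
      · rw [Finset.sdiff_sdiff_eq_self hUF]
        exact p3
      · rw [Finset.sdiff_sdiff_eq_self hUF]
        omega

theorem inner {R : V → V → Prop} {b Δ m : ℕ} (hT : AE32.Tour R) (hE : ∀ a b, E a b → ¬ E b a)
    (hG : (SimpleGraph.fromRel E).IsAcyclic) [Finite W] [Nonempty V]
    (hdeg : ∀ w, ∀ S : Finset W, (∀ v ∈ S, E v w ∨ E w v) → S.card ≤ Δ) (hb : 2 * (Δ * m) ≤ b) (hb1 : 1 ≤ b)
    {L Cap : ℕ} (hL : L = 5 * b * (5 * b * (Δ + 1) ^ (5 * b))) (hC : Cap = 4 * b * (5 * b * (Δ + 1) ^ (5 * b)) + L)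
    {K : Finset V} {e : ℕ → V} (ho : Ord R K m K.card e) (F : Finset W) :
    ∃ F', Upper E F F' ∧ Emb R E (F \ F') K ∧
      (F' = ∅ ∨ K.card + 3 * b * PhiC E b L Cap F' ≤ (F \ F').card + 3 * b * PhiC E b L Cap F) := by
  obtain ⟨ht, hht⟩ := exists_ht hE hG
  have hin : ∀ w, ∀ S : Finset W, (∀ v ∈ S, E v w) → S.card ≤ Δ :=
    fun w S hS => hdeg w S (fun v hv => Or.inl (hS v hv))
  have hout : ∀ u, ∀ S : Finset W, (∀ v ∈ S, E u v) → S.card ≤ Δ :=
    fun u S hS => hdeg u S (fun v hv => Or.inr (hS v hv))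
  by_cases hK : K.card < b
  · exact inner_small hT hE hG hht hin hout hb1 hL hC hK F
  obtain ⟨h, hh⟩ : ∃ h, h = K.card := ⟨_, rfl⟩
  rw [← hh] at ho hK
  obtain ⟨bad, hbad⟩ : ∃ bad : ℕ → Finset ℕ, bad = fun i => if i < h then
    (range h).filter (fun j => j < i ∧ R (e i) (e j) ∨ i < j ∧ R (e j) (e i)) else ∅ := ⟨_, rfl⟩
  have hmem : ∀ i j, j ∈ bad i ↔ i < h ∧ j < h ∧ (j < i ∧ R (e i) (e j) ∨ i < j ∧ R (e j) (e i)) := by
    intro i j
    rw [hbad]
    show j ∈ (if i < h then _ else _) ↔ _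
    by_cases hi : i < h
    · rw [if_pos hi, mem_filter, mem_range]
      exact ⟨fun h => ⟨hi, h.1, h.2⟩, fun h => h.2⟩
    · rw [if_neg hi]
      exact ⟨fun h => absurd h (notMem_empty j), fun h => absurd h.1 hi⟩
  have hbs : ∀ i j, j ∈ bad i ↔ i ∈ bad j := by
    intro i j
    rw [hmem, hmem]
    tauto
  have hbm : ∀ i, (bad i).card ≤ m := by
    intro i
    by_cases hi : i < h
    · rw [hbad]
      show (if i < h then _ else _ : Finset ℕ).card ≤ m
      rw [if_pos hi]
      exact ho.deg i hi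
    · rw [hbad]
      show (if i < h then _ else _ : Finset ℕ).card ≤ m
      rw [if_neg hi, card_empty]
      exact Nat.zero_le m
  have hbc : ∀ i, i + 1 ∉ bad i := by
    intro i hi
    rw [hmem] at hi
    obtain ⟨h1, h2, h3⟩ := hi
    have h4 := ho.arc i h2
    rcases h3 with h3 | h3
    · omega
    · exact hT.asym _ _ h4 h3.2
  obtain ⟨F', B, g, g1, g2, g3⟩ := claim1 (h := h) hE hG hht hin hout hbm hbc hb hb1 hL hC h 0 F
    (Nat.zero_add h) (not_lt.1 hK)
  obtain ⟨f, -, f1, f2, f3⟩ := sch_emb hdeg hE hbs hbm hbc g2 ∅ (fun _ => 0) (disjoint_empty_left _) (by simp)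
    (by simp) (by simp)
  refine ⟨F', g1, ⟨fun w => e (f w), fun w hw => ?_, ?_, ?_⟩, by rw [← hh]; exact g3⟩
  · rw [← ho.im]
    exact mem_image_of_mem e (mem_range.2 (f1 w hw).2)
  · intro a ha b hb hab
    exact f2 ha hb (ho.inj (by rw [mem_coe, mem_range]; exact (f1 a ha).2) (by rw [mem_coe, mem_range]; exact (f1 b hb).2) hab)
  · intro u hu w hw huw
    obtain ⟨h1, h2⟩ := f3 u (mem_union_right _ hu) w hw huw
    have h3 := (f1 u hu).2
    have h4 := (f1 w hw).2
    have hne : e (f u) ≠ e (f w) := by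
      intro h5
      have := ho.inj (by rw [mem_coe, mem_range]; exact h3) (by rw [mem_coe, mem_range]; exact h4) h5
      omega
    rcases hT.tot _ _ hne with h5 | h5
    · exact h5
    · exact absurd ((hmem _ _).2 ⟨h3, h4, Or.inr ⟨h1, h5⟩⟩) h2

end SPS65
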