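import Pool.Agent.SPS65.Defs

/-!
# The outer induction: one strong component of the tournament after the other
-/

set_option autoImplicit false

namespace SPS65

open Finset Relation SPC65
open scoped Classical

variable {V W : Type}

theorem nc_succ [Fintype V] (R : V → V → Prop) (E : W → W → Prop) (lev : V → ℕ) (m : ℕ) :
    nc R E lev m = nc R E lev (m + 1) +
      if (∀ U : Finset W, U.card ≤ (KK lev m).card → Emb R E U (KK lev m)) then 0 else (KK lev m).card := by
  unfold nc
  rw [XX_succ, filter_union, card_union_of_disjoint (disjoint_filter_filter (KX_disj lev m)), add_comm]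
  congr 1
  by_cases h : ∀ U : Finset W, U.card ≤ (KK lev m).card → Emb R E U (KK lev m)
  · rw [if_pos h, filter_false_of_mem, card_empty]
    intro v hv
    simp only [KK, mem_filter, mem_univ, true_and] at hv
    rw [hv, not_not]
    exact h
  · rw [if_neg h, filter_true_of_mem]
    intro v hv
    simp only [KK, mem_filter, mem_univ, true_and] at hv
    rw [hv]
    exact h

theorem core2 [Nonempty V] [Finite W] [Fintype V] {R : V → V → Prop} {E : W → W → Prop} {lev : V → ℕ}
    (hlev : ∀ x y, lev x < lev y → R x y) {ht : W → ℕ} (hht : ∀ a b, E a b → ht a < ht b) (Ψ : Finset W → ℕ)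
    (hΨ : ∀ F F', Upper E F F' → Ψ F' ≤ Ψ F)
    (hcell : ∀ m, (∀ U : Finset W, U.card ≤ (KK lev m).card → Emb R E U (KK lev m)) ∨
      ∀ F, ∃ F', Upper E F F' ∧ Emb R E (F \ F') (KK lev m) ∧
        (F' = ∅ ∨ (KK lev m).card + Ψ F' ≤ (F \ F').card + Ψ F)) {M : ℕ} (hM : ∀ v, lev v < M) :
    ∀ t m : ℕ, m + t = M → ∀ F : Finset W, F.card + min (Ψ F) (nc R E lev m) ≤ (XX lev m).card →
      Emb R E F (XX lev m) := by
  intro t
  induction t with
  | zero =>
    intro m hm F hF
    have h1 : XX lev m = ∅ := by
      unfold XX
      rw [filter_eq_empty_iff]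
      intro v _
      have := hM v
      omega
    rw [h1, card_empty] at hF
    have h2 : F = ∅ := by
      rw [← card_eq_zero]
      omega
    subst h2
    exact ⟨fun _ => Classical.arbitrary V, by simp, by simp, by simp⟩
  | succ t ih =>
    intro m hm F hF
    have ih' := ih (m + 1) (by omega)
    have hX := XX_succ lev m
    have hd := KX_disj lev m
    have hc : (XX lev m).card = (KK lev m).card + (XX lev (m + 1)).card := by
      rw [hX, card_union_of_disjoint hd]
    have hs := nc_succ R E lev m
    have hK : ∀ x ∈ KK lev m, ∀ y ∈ XX lev (m + 1), R x y := by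
      intro x hx y hy
      simp only [XX, KK, mem_filter, mem_univ, true_and] at hx hy
      exact hlev x y (by omega)
    by_cases hu : ∀ U : Finset W, U.card ≤ (KK lev m).card → Emb R E U (KK lev m)
    · rw [if_pos hu, add_zero] at hs
      by_cases h1 : F.card ≤ (KK lev m).card
      · exact (hu F h1).mono (by rw [hX]; exact subset_union_left)
      · obtain ⟨F', hF1, hF2⟩ := exists_upper hht F (KK lev m).card (by omega)
        rw [hX]
        refine Emb.glue hF1 (hu _ hF2.le) (ih' _ ?_) hd hK
        have h2 := card_sdiff_add_card_eq_card hF1.1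
        have h3 := hΨ F F' hF1
        omega
    · rw [if_neg hu] at hs
      by_cases h1 : F.card + nc R E lev m ≤ (XX lev m).card
      · exact (ih' F (by omega)).mono (by rw [hX]; exact subset_union_right)
      · obtain ⟨F', hF1, hF2, hF3⟩ := (hcell m).resolve_left hu F
        have h2 := card_sdiff_add_card_eq_card hF1.1
        rcases hF3 with rfl | hF3
        · rw [sdiff_empty] at hF2
          exact hF2.mono (by rw [hX]; exact subset_union_left)
        · rw [hX]
          refine Emb.glue hF1 hF2 (ih' _ ?_) hd hK
          omega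

end SPS65
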