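import Pool.Agent.SPS65.Defs

/-!
# The potential inside of a component: monotonicity and the bound by `mu`
-/

set_option autoImplicit false

namespace SPS65

open Finset Relation SPC65
open scoped Classical

variable {V W : Type}

theorem aset_mono {E : W → W → Prop} {b : ℕ} {F F' : Finset W} (h : F' ⊆ F) : Aset E b F' ⊆ Aset E b F := by
  intro u hu
  unfold Aset at hu ⊢
  rw [mem_filter] at hu ⊢
  obtain ⟨huF, j, hj, y, hy, h2, hc⟩ := hu
  refine ⟨h huF, j, hj, y, h hy, le_trans h2 (card_le_card ?_), hc⟩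
  intro v hv
  unfold inn at hv ⊢
  rw [mem_filter] at hv ⊢
  exact ⟨h hv.1, hv.2⟩

/-- the in-neighbours of a vertex lie in a finite set with at most `Δ` members -/
theorem inn_fin78 {E : W → W → Prop} {Δ : ℕ} (hin : ∀ w, ∀ S : Finset W, (∀ v ∈ S, E v w) → S.card ≤ Δ) (w : W) :
    ∃ N : Finset W, N.card ≤ Δ ∧ ∀ u, E u w → u ∈ N := by
  have hf : {u | E u w}.Finite := by
    by_contra hi
    obtain ⟨t, ht, hc⟩ := Set.Infinite.exists_subset_card_eq (s := {u | E u w}) hi (Δ + 1)
    have := hin w t (fun v hv => ht hv)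
    omega
  refine ⟨hf.toFinset, hin w _ (fun v hv => by simpa using hv), fun u hu => by simpa using hu⟩

/-- the starting points of the paths with `j` arcs to `y` -/
theorem ch_fin78 {E : W → W → Prop} {Δ : ℕ} (hin : ∀ w, ∀ S : Finset W, (∀ v ∈ S, E v w) → S.card ≤ Δ) (y : W) :
    ∀ j : ℕ, ∃ N : Finset W, N.card ≤ Δ ^ j ∧ ∀ u, Ch E j u y → u ∈ N
  | 0 => ⟨{y}, by simp, fun u hu => by cases hu; simp⟩
  | j + 1 => by
    obtain ⟨N, hN, hN'⟩ := ch_fin78 hin y j
    choose f hf hf' using inn_fin78 hin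
    refine ⟨N.biUnion f, ?_, ?_⟩
    · refine le_trans card_biUnion_le ?_
      refine le_trans (sum_le_card_nsmul N _ Δ (fun v _ => hf v)) ?_
      rw [smul_eq_mul, pow_succ]
      exact Nat.mul_le_mul_right _ hN
    · intro u hu
      cases hu with
      | succ _ _ v _ huv hv => exact mem_biUnion.2 ⟨v, hN' v hv, hf' v u huv⟩

theorem aset_card {E : W → W → Prop} {b Δ : ℕ} (hin : ∀ w, ∀ S : Finset W, (∀ v ∈ S, E v w) → S.card ≤ Δ)
    (F : Finset W) : (Aset E b F).card ≤ mu E F * (5 * b * (Δ + 1) ^ (5 * b)) := by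
  choose N hN hN' using fun y => ch_fin78 (E := E) hin y
  have hsub : Aset E b F ⊆ (F.filter (fun y => 2 ≤ (inn E F y).card)).biUnion
      (fun y => (range (5 * b)).biUnion (fun j => N y j)) := by
    intro u hu
    unfold Aset at hu
    rw [mem_filter] at hu
    obtain ⟨huF, j, hj, y, hy, h2, hc⟩ := hu
    exact mem_biUnion.2 ⟨y, mem_filter.2 ⟨hy, h2⟩, mem_biUnion.2 ⟨j, mem_range.2 hj, hN' y j u hc⟩⟩
  have hin' : ∀ y, ((range (5 * b)).biUnion (fun j => N y j)).card ≤ 5 * b * (Δ + 1) ^ (5 * b) := by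
    intro y
    refine le_trans card_biUnion_le ?_
    refine le_trans (sum_le_card_nsmul (range (5 * b)) _ ((Δ + 1) ^ (5 * b)) (fun j hj => ?_)) ?_
    · refine le_trans (hN y j) (le_trans (Nat.pow_le_pow_left (Nat.le_succ Δ) j) ?_)
      exact Nat.pow_le_pow_right (Nat.succ_pos Δ) (mem_range.1 hj).le
    · rw [card_range, smul_eq_mul]
  have hY : (F.filter (fun y => 2 ≤ (inn E F y).card)).card ≤ mu E F := by
    unfold mu
    rw [card_filter]
    refine sum_le_sum (fun y _ => ?_)
    split_ifs with h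
    · omega
    · exact Nat.zero_le _
  refine le_trans (card_le_card hsub) (le_trans card_biUnion_le ?_)
  refine le_trans (sum_le_card_nsmul _ _ (5 * b * (Δ + 1) ^ (5 * b)) (fun y _ => hin' y)) ?_
  rw [smul_eq_mul]
  exact Nat.mul_le_mul_right _ hY

end SPS65
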