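import Pool.Agent.SPS65.Ord
import Pool.Agent.SPS65.Pot
import Pool.Agent.SPS65.Outer
import Pool.Agent.SPS65.Inner
import Pool.Agent.SPC65.Cor

/-!
# Tournaments all of whose strong components are expanding or have few backward arcs
-/

set_option autoImplicit false

namespace SPS65

open Finset Relation SPC65
open scoped Classical

variable {V W : Type}

/-- the vertices of `S` send many arcs to the rest of `X` -/
def Expands {n : ℕ} (R : Fin n → Fin n → Prop) (θ : ℝ) (X : Set (Fin n)) : Prop :=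
  ∀ S ⊆ X, θ * X.ncard * (min S.ncard (X \ S).ncard : ℕ) ≤
    ({p : Fin n × Fin n | p.1 ∈ S ∧ p.2 ∈ X \ S ∧ R p.1 p.2}.ncard : ℝ)

/-- `X` has an ordering in which every vertex is in at most `m` backward arcs -/
def Sparse {n : ℕ} (R : Fin n → Fin n → Prop) (m : ℕ) (X : Set (Fin n)) : Prop :=
  ∃ σ : Fin n → ℕ, Set.InjOn σ X ∧
    ∀ x ∈ X, {y : Fin n | y ∈ X ∧ (σ y < σ x ∧ R x y ∨ σ x < σ y ∧ R y x)}.ncard ≤ m

/-- the potential does not increase -/
theorem phiC_mono {E : W → W → Prop} {b L Cap : ℕ} {F F' : Finset W} (h : F' ⊆ F) :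
    PhiC E b L Cap F' ≤ PhiC E b L Cap F := by
  unfold PhiC
  have h1 := card_le_card (aset_mono (E := E) (b := b) h)
  have h2 := card_le_card h
  omega

/-- everything which fits is embedded in a component with one vertex -/
theorem emb_one [Nonempty V] {R : V → V → Prop} {E : W → W → Prop} (hE : ∀ a b, E a b → ¬ E b a) {K : Finset V}
    (hK : K.card ≤ 1) (U : Finset W) (hU : U.card ≤ K.card) : Emb R E U K := by
  obtain ⟨f, f1, f2⟩ := exists_inj hU
  refine ⟨f, f1, f2, fun a ha b hb hab => ?_⟩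
  have h1 : a = b := card_le_one.1 (hU.trans hK) a ha b hb
  subst h1
  exact absurd hab (hE _ _ hab)

/-- an ordering with few backward arcs from `Sparse` -/
theorem sparse_ord {n : ℕ} [Nonempty (Fin n)] {R : Fin n → Fin n → Prop} (hT : AE32.Tour R) {m m' : ℕ}
    (hm : m ≤ m') {K : Finset (Fin n)} (h : Sparse R m (K : Set (Fin n))) : ∃ e : ℕ → Fin n, Ord R K m' K.card e := by
  obtain ⟨σ, h1, h2⟩ := h
  refine exists_ord hT K m' σ h1 fun x hx => ?_
  refine le_trans ?_ ((h2 x (mem_coe.2 hx)).trans hm)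
  rw [← Set.ncard_coe_finset]
  apply Set.ncard_le_ncard _ (Set.toFinite _)
  intro y hy
  rw [coe_filter] at hy
  exact ⟨mem_coe.2 hy.1, hy.2⟩

/-- small components -/
theorem small_ord {n : ℕ} [Nonempty (Fin n)] {R : Fin n → Fin n → Prop} (hT : AE32.Tour R) {m' : ℕ}
    {K : Finset (Fin n)} (h : K.card ≤ m') : ∃ e : ℕ → Fin n, Ord R K m' K.card e :=
  exists_ord hT K m' (fun v => v.val) (fun _ _ _ _ hab => Fin.ext hab) fun _ _ => (card_filter_le _ _).trans h

/-- **The main theorem**, from the theorem on spanning trees. -/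
theorem main2 (hS : SpanSt) (Δ m : ℕ) (θ : ℝ) (hθ : 0 < θ) : ∃ C : ℕ, ∀ k n : ℕ, ∀ R : Fin n → Fin n → Prop,
    (∀ a, ¬ R a a) → (∀ a b, a ≠ b → R a b ∨ R b a) → (∀ a b, R a b → ¬ R b a) →
    (∀ a : Fin n, Expands R θ (comp R a) ∨ Sparse R m (comp R a)) →
    k + 1 + min C {a : Fin n | 1 < (comp R a).ncard ∧ ((comp R a).ncard < C ∨ ¬ Expands R θ (comp R a))}.ncard ≤ n →
    ∀ E : Fin (k + 1) → Fin (k + 1) → Prop,
      (∀ a b, E a b → ¬ E b a) →
      (SimpleGraph.fromRel E).IsTree →
      (∀ v, ((SimpleGraph.fromRel E).neighborSet v).ncard ≤ Δ) →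
      ∀ (r : Fin (k + 1)) (v : Fin n), ∃ f : Fin (k + 1) → Fin n, Function.Injective f ∧
        (∀ a b, E a b → R (f a) (f b)) ∧ (Expands R θ Set.univ → C ≤ n → f r = v) := by
  obtain ⟨N, hN⟩ := hS (max Δ 2) θ hθ
  obtain ⟨m', hm'⟩ : ∃ m', m' = max m N := ⟨_, rfl⟩
  obtain ⟨b, hb⟩ : ∃ b, b = max 1 (2 * (Δ * m')) := ⟨_, rfl⟩
  obtain ⟨L, hL⟩ : ∃ L, L = 5 * b * (5 * b * (Δ + 1) ^ (5 * b)) := ⟨_, rfl⟩
  obtain ⟨Cap, hC⟩ : ∃ Cap, Cap = 4 * b * (5 * b * (Δ + 1) ^ (5 * b)) + L := ⟨_, rfl⟩
  refine ⟨max N (3 * b * Cap), ?_⟩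
  intro k n R h1 h2 h3 hcomp hn E hE hT hdeg r v
  by_cases hv : Expands R θ Set.univ ∧ max N (3 * b * Cap) ≤ n
  · obtain ⟨hv1, hv2⟩ := hv
    obtain ⟨f, f1, f2, f3⟩ := hN k n ((le_max_left _ _).trans hv2) (by omega) R h1 h2 h3 (fun S => by
      have h4 := hv1 S (Set.subset_univ S)
      rw [← Set.compl_eq_univ_sdiff, Set.ncard_univ, Nat.card_fin] at h4
      exact h4) E hE hT (fun v => (hdeg v).trans (le_max_left _ _)) r v
    exact ⟨f, f1, f2, fun _ _ => f3⟩
  · have hne : Nonempty (Fin n) := ⟨v⟩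
    have hTour : AE32.Tour R := ⟨h1, h2, h3⟩
    obtain ⟨ht, hht⟩ := exists_ht hE hT.isAcyclic
    have hdeg' : ∀ w, ∀ S : Finset (Fin (k + 1)), (∀ v ∈ S, E v w ∨ E w v) → S.card ≤ Δ := by
      intro w S hS
      refine le_trans ?_ (hdeg w)
      rw [← Set.ncard_coe_finset]
      apply Set.ncard_le_ncard _ (Set.toFinite _)
      intro u hu
      have h4 := hS u hu
      rw [SimpleGraph.mem_neighborSet, SimpleGraph.fromRel_adj]
      refine ⟨?_, h4.symm⟩
      rintro rfl
      rcases h4 with h4 | h4 <;> exact hE _ _ h4 h4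
    -- large expanding components are universal
    have hbigc : ∀ a : Fin n, N ≤ (comp R a).ncard → Expands R θ (comp R a) →
        ∀ U : Finset (Fin (k + 1)), U.card ≤ (KK (lev R) (lev R a)).card → Emb R E U (KK (lev R) (lev R a)) := by
      intro a ha hexp
      refine big (le_max_right Δ 2) (le_max_left Δ 2) hN h1 h2 h3 hE hT.isAcyclic hdeg ?_ ?_
      · rw [card_KK h2]
        exact ha
      · rw [coe_KK h2, card_KK h2]
        exact hexp
    have hmain := core2 (V := Fin n) (W := Fin (k + 1)) (R := R) (E := E) (lev := lev R)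
      (fun x y h => lev_arc h2 h) hht (fun F => 3 * b * PhiC E b L Cap F)
      (fun F F' h => Nat.mul_le_mul_left _ (phiC_mono h.1)) (fun M => ?_) (M := n + 1)
      (fun v => by unfold lev; omega) (n + 1) 0 (by omega) univ ?_
    · obtain ⟨f, f1, f2, f3⟩ := hmain
      exact ⟨f, fun a b hab => f2 (by simp) (by simp) hab, fun a b hab => f3 a (mem_univ a) b (mem_univ b) hab,
        fun h4 h5 => absurd ⟨h4, h5⟩ hv⟩
    · -- the cells
      rcases (KK (lev R) M).eq_empty_or_nonempty with h0 | ⟨a, ha⟩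
      · left
        exact fun U hU => emb_one hE (by rw [h0]; simp) U hU
      · have ham : lev R a = M := by simpa [KK] using ha
        subst ham
        by_cases hbg : N ≤ (comp R a).ncard ∧ Expands R θ (comp R a)
        · exact Or.inl (hbigc a hbg.1 hbg.2)
        · right
          obtain ⟨e, he⟩ : ∃ e : ℕ → Fin n, Ord R (KK (lev R) (lev R a)) m' (KK (lev R) (lev R a)).card e := by
            by_cases hsm : (comp R a).ncard < N
            · refine small_ord hTour ?_
              rw [card_KK h2, hm']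
              exact hsm.le.trans (le_max_right _ _)
            · rcases hcomp a with h4 | h4
              · exact absurd ⟨not_lt.1 hsm, h4⟩ hbg
              · refine sparse_ord hTour (m := m) (by rw [hm']; exact le_max_left _ _) ?_
                rw [coe_KK h2]
                exact h4
          intro F
          exact inner hTour hE hT.isAcyclic hdeg' (by rw [hb]; exact le_max_right _ _)
            (by rw [hb]; exact le_max_left _ _) hL hC he F
    · -- the count
      have h4 : (XX (lev R) 0).card = n := by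
        unfold XX
        rw [filter_true_of_mem (fun v _ => Nat.zero_le _), card_univ, Fintype.card_fin]
      have h5 : nc R E (lev R) 0 ≤ {a : Fin n | 1 < (comp R a).ncard ∧
          ((comp R a).ncard < max N (3 * b * Cap) ∨ ¬ Expands R θ (comp R a))}.ncard := by
        unfold nc
        rw [← Set.ncard_coe_finset]
        apply Set.ncard_le_ncard _ (Set.toFinite _)
        intro a ha
        rw [coe_filter] at ha
        obtain ⟨-, ha⟩ := ha
        refine ⟨?_, ?_⟩
        · by_contra h6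
          exact ha (emb_one hE (by rw [card_KK h2]; omega))
        · by_contra h6
          rw [not_or, not_lt, not_not] at h6
          exact ha (hbigc a ((le_max_left _ _).trans h6.1) h6.2)
      have h6 : 3 * b * PhiC E b L Cap univ ≤ 3 * b * Cap := Nat.mul_le_mul_left _ (min_le_left _ _)
      rw [h4, card_univ, Fintype.card_fin]
      have h7 : 3 * b * Cap ≤ max N (3 * b * Cap) := le_max_right _ _
      omega

end SPS65
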