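import Pool.Agent.SPC65.Core

/-!
# Tournaments with few backward arcs: definitions

`E` is the oriented tree (on `W`), `R` the tournament (on `V`). A component of the tournament which has an ordering with few
backward arcs at every vertex is enumerated by the numbers below `h`; `bad i` is the set of the positions which are joined
to `i` by a backward arc.
-/

set_option autoImplicit false

namespace SPS65

open Finset Relation SPC65
open scoped Classical

variable {V W : Type}

/-- an enumeration of `K` by the numbers below `h`: consecutive vertices are joined by an arc, and every vertex is in at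
most `m` backward arcs -/
structure Ord (R : V → V → Prop) (K : Finset V) (m h : ℕ) (e : ℕ → V) : Prop where
  inj : Set.InjOn e (range h : Set ℕ)
  im : (range h).image e = K
  arc : ∀ i, i + 1 < h → R (e i) (e (i + 1))
  deg : ∀ i < h, ((range h).filter (fun j => j < i ∧ R (e i) (e j) ∨ i < j ∧ R (e j) (e i))).card ≤ m

/-- a directed path `c 0, ..., c (ℓ - 1)` in `F`; each vertex has no other in-neighbour in `F` than the one before it -/
def FP (E : W → W → Prop) (F : Finset W) (c : ℕ → W) (ℓ : ℕ) : Prop :=
  (∀ i < ℓ, c i ∈ F) ∧ inn E F (c 0) = ∅ ∧ ∀ i, i + 1 < ℓ → inn E F (c (i + 1)) = {c i}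

/-- a directed path with `j` arcs from `u` to `y` -/
inductive Ch (E : W → W → Prop) : ℕ → W → W → Prop
  | zero (u : W) : Ch E 0 u u
  | succ (j : ℕ) (u v y : W) : E u v → Ch E j v y → Ch E (j + 1) u y

/-- the vertices near (before) a vertex with two in-neighbours -/
noncomputable def Aset (E : W → W → Prop) (b : ℕ) (F : Finset W) : Finset W :=
  F.filter (fun u => ∃ j < 5 * b, ∃ y ∈ F, 2 ≤ (inn E F y).card ∧ Ch E j u y)

/-- the potential inside of a component, `A` is fixed -/
noncomputable def Pot (L : ℕ) (A F : Finset W) : ℕ := (F.filter (fun u => u ∈ A)).card + min F.card L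

/-- the potential -/
noncomputable def PhiC (E : W → W → Prop) (b L Cap : ℕ) (F : Finset W) : ℕ :=
  min Cap ((Aset E b F).card + min F.card L)

/-- the schedule of the embedding of `F \ F'` from the position `s` on: the vertices in `B` have fixed positions `g`; the
other vertices are placed in blocks of independent vertices -/
inductive Sch (E : W → W → Prop) (bad : ℕ → Finset ℕ) (D h : ℕ) :
    ℕ → Finset W → Finset W → Finset W → (W → ℕ) → Prop
  | nil (s : ℕ) (F : Finset W) (g : W → ℕ) : s ≤ h → Sch E bad D h s F F ∅ g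
  | ind (s ℓ : ℕ) (F U F' B : Finset W) (g : W → ℕ) : U ⊆ src E F → U.card ≤ ℓ → 2 * D ≤ ℓ →
      Sch E bad D h (s + ℓ) (F \ U) F' B g → Sch E bad D h s F F' B g
  | path (s ℓ : ℕ) (F F' B : Finset W) (g : W → ℕ) (c : ℕ → W) : 0 < ℓ → FP E F c ℓ →
      (∀ i < ℓ, g (c i) = s + i) → (∀ i < ℓ, ∀ y ∈ B, E (c i) y → g y ∉ bad (s + i)) →
      Sch E bad D h (s + ℓ) (F \ (range ℓ).image c) F' B g →
      Sch E bad D h s F F' (B ∪ (range ℓ).image c) g

/-- the state from which the embedding can go on -/
def Good (E : W → W → Prop) (bad : ℕ → Finset ℕ) (b L : ℕ) (A : Finset W) (s : ℕ) (F P : Finset W) (g : W → ℕ) : Prop :=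
  4 * b ≤ (src E F).card ∨ (∃ u ∈ src E F, u ∈ A) ∨ F.card ≤ L ∨
    ∃ c : ℕ → W, FP E F c (3 * b) ∧ ∀ u ∈ P, E u (c 0) → s ∉ bad (g u)

/-- the number of the vertices of the rest which lie in components that are not universal -/
noncomputable def nc [Fintype V] (R : V → V → Prop) (E : W → W → Prop) (lev : V → ℕ) (m : ℕ) : ℕ :=
  ((XX lev m).filter (fun v => ¬ ∀ U : Finset W, U.card ≤ (KK lev (lev v)).card →
    Emb R E U (KK lev (lev v)))).card

end SPS65
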