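import Pool.Agent.SPS65.Defs

/-!
# A long path, or few vertices
-/

set_option autoImplicit false

namespace SPS65

open Finset Relation SPC65
open scoped Classical

variable {V W : Type}

theorem Ch.snoc {E : W → W → Prop} {j : ℕ} {u v y : W} (h : Ch E j u v) (hvy : E v y) : Ch E (j + 1) u y := by
  induction h with
  | zero u => exact Ch.succ 0 u y y hvy (Ch.zero y)
  | succ j u v w huv _ ih => exact Ch.succ (j + 1) u v y huv (ih hvy)

theorem lv_ch {E : W → W → Prop} {F : Finset W} (j : ℕ) : ∀ v ∈ lv E F j, ∃ u ∈ src E F, Ch E j u v := by
  induction j with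
  | zero => exact fun v hv => ⟨v, hv, Ch.zero v⟩
  | succ j ih =>
    intro v hv
    rw [lv, mem_filter] at hv
    obtain ⟨_, u, hu, h2⟩ := hv
    obtain ⟨s, hs, h3⟩ := ih u hu
    have h4 : u ∈ inn E F v := by rw [h2]; exact mem_singleton_self u
    exact ⟨s, hs, h3.snoc (mem_inn.1 h4).2⟩

theorem few {E : W → W → Prop} {b Δ : ℕ} (hb : 1 ≤ b) {ht : W → ℕ} (hht : ∀ a b, E a b → ht a < ht b)
    (hout : ∀ u, ∀ S : Finset W, (∀ v ∈ S, E u v) → S.card ≤ Δ) {F : Finset W}
    (h1 : (src E F).card < 4 * b) (h2 : ∀ u ∈ src E F, u ∉ Aset E b F) :
    (∃ c : ℕ → W, FP E F c (5 * b)) ∨ F.card ≤ 5 * b * (5 * b * (Δ + 1) ^ (5 * b)) := by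
  rcases (lv E F (5 * b - 1)).eq_empty_or_nonempty with he | ⟨v, hv⟩
  · rcases path_or (E := E) (F := F) (Δ := Δ) (N := 5 * b) (h := 5 * b) hout (by omega) le_rfl (by omega) with hp | hf
    · left
      exact hp
    · right
      have h3 : ∀ j, lv E F (5 * b - 1 + j) = ∅ := by
        intro j
        induction j with
        | zero => exact he
        | succ j ih =>
          rw [← Nat.add_assoc, lv, filter_eq_empty_iff]
          rintro v _ ⟨u, hu, _⟩
          rw [ih] at hu
          exact absurd hu (notMem_empty u)
      have h4 : ∀ m, ∀ v ∈ F, ht v = m → Free E F v := by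
        intro m
        induction m using Nat.strong_induction_on with
        | _ m ih =>
          intro v hv hm
          have h5 : ∀ u ∈ inn E F v, Free E F u := by
            intro u hu
            rw [mem_inn] at hu
            exact ih (ht u) (by rw [← hm]; exact hht u v hu.2) u hu.1 rfl
          rcases (inn E F v).eq_empty_or_nonempty with h6 | ⟨u, hu⟩
          · exact Free.src v hv h6
          · by_cases h7 : 2 ≤ (inn E F v).card
            · exfalso
              obtain ⟨j, hj⟩ := free_lv (h5 u hu)
              obtain ⟨s, hs, h8⟩ := lv_ch j u hj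
              have h9 : j < 5 * b - 1 := by
                by_contra h10
                have h11 := h3 (j - (5 * b - 1))
                rw [Nat.add_sub_cancel' (not_lt.1 h10)] at h11
                rw [h11] at hj
                exact absurd hj (notMem_empty u)
              apply h2 s hs
              unfold Aset
              rw [mem_filter]
              refine ⟨?_, j + 1, by omega, v, hv, h7, h8.snoc (mem_inn.1 hu).2⟩
              unfold src at hs
              exact (mem_filter.1 hs).1
            · have h8 : inn E F v = {u} := by
                apply (eq_of_subset_of_card_le (singleton_subset_iff.2 hu) ?_).symm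
                rw [card_singleton]
                omega
              exact Free.step u v hv h8 (h5 u hu)
      have h12 : F ⊆ free E F := by
        intro v hv
        unfold free
        rw [mem_filter]
        exact ⟨hv, h4 _ v hv rfl⟩
      exact (card_le_card h12).trans hf
  · left
    obtain ⟨c, -, hc2, hc3, hc4⟩ := lv_chain (5 * b - 1) v hv
    exact ⟨c, fun i hi => hc2 i (by omega), hc3, fun i hi => hc4 i (by omega)⟩

end SPS65
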