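import Pool.Agent.SPS65.Defs
import Mathlib.Combinatorics.Hall.Basic

/-!
# Distinct positions for a block of independent vertices
-/

set_option autoImplicit false

namespace SPS65

open Finset Relation SPC65
open scoped Classical

variable {V W : Type}

theorem hall (U : Finset W) (J : Finset ℕ) (X : W → Finset ℕ) (D : ℕ)
    (h1 : ∀ w ∈ U, (J.filter (fun p => p ∈ X w)).card ≤ D) (h2 : ∀ p ∈ J, (U.filter (fun w => p ∈ X w)).card ≤ D)
    (h3 : U.card ≤ J.card) (h4 : 2 * D ≤ J.card) :
    ∃ f : W → ℕ, Set.InjOn f (U : Set W) ∧ ∀ w ∈ U, f w ∈ J ∧ f w ∉ X w := by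
  have key : ∀ S : Finset U, S.card ≤ (S.biUnion (fun w => J.filter (fun p => p ∉ X w.1))).card := by
    intro S
    rcases S.eq_empty_or_nonempty with rfl | ⟨w, hw⟩
    · simp
    have hS : (S.image Subtype.val).card = S.card := card_image_of_injective _ Subtype.val_injective
    have hSU : S.image Subtype.val ⊆ U := by
      intro x hx
      obtain ⟨y, -, rfl⟩ := mem_image.1 hx
      exact y.2
    by_cases hc : S.card ≤ J.card - D
    · have h5 : (J.filter (fun p => p ∉ X w.1)).card ≤ (S.biUnion (fun w => J.filter (fun p => p ∉ X w.1))).card :=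
        card_le_card (subset_biUnion_of_mem (fun w : U => J.filter (fun p => p ∉ X w.1)) hw)
      have h6 := card_filter_add_card_filter_not (s := J) (fun p => p ∈ X w.1)
      have h7 := h1 w.1 w.2
      omega
    · have h5 : J ⊆ S.biUnion (fun w => J.filter (fun p => p ∉ X w.1)) := by
        intro p hp
        by_contra hcon
        have h6 : S.image Subtype.val ⊆ U.filter (fun w => p ∈ X w) := by
          intro x hx
          rw [mem_filter]
          refine ⟨hSU hx, ?_⟩
          obtain ⟨y, hy, rfl⟩ := mem_image.1 hx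
          by_contra h7
          exact hcon (mem_biUnion.2 ⟨y, hy, mem_filter.2 ⟨hp, h7⟩⟩)
        have h7 := card_le_card h6
        have h8 := h2 p hp
        omega
      have h6 := card_le_card h5
      have h7 := card_le_card hSU
      omega
  obtain ⟨f, hf1, hf2⟩ := (Finset.all_card_le_biUnion_card_iff_exists_injective
    (fun w : U => J.filter (fun p => p ∉ X w.1))).1 key
  refine ⟨fun w => if hw : w ∈ U then f ⟨w, hw⟩ else 0, ?_, ?_⟩
  · intro a ha b hb hab
    rw [mem_coe] at ha hb
    simp only [dif_pos ha, dif_pos hb] at hab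
    exact congrArg Subtype.val (hf1 hab)
  · intro w hw
    simp only [dif_pos hw]
    have h5 := hf2 ⟨w, hw⟩
    rw [mem_filter] at h5
    exact h5

end SPS65
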