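import Pool.Agent.SPS65.Defs

/-!
# A Hamilton path which has no other backward arcs than a given ordering
-/

set_option autoImplicit false

namespace SPS65

open Finset Relation SPC65
open scoped Classical

variable {V W : Type}

/-- the place of a new vertex: it is beaten by the vertex before it and beats all the vertices after it -/
theorem split78 {R : V → V → Prop} (hT : AE32.Tour R) (a : V) : ∀ l : List V, a ∉ l →
    ∃ l1 l2 : List V, l = l1 ++ l2 ∧ (∀ y ∈ l2, R a y) ∧ (∀ x ∈ l1.getLast?, R x a)
  | [], _ => ⟨[], [], by simp, by simp, by simp⟩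
  | b :: t, ha => by
    rw [List.mem_cons, not_or] at ha
    obtain ⟨l1, l2, h1, h2, h3⟩ := split78 hT a t ha.2
    cases l1 with
    | nil =>
      rw [List.nil_append] at h1
      rcases hT.tot a b ha.1 with h4 | h4
      · refine ⟨[], b :: l2, by rw [h1, List.nil_append], ?_, by simp⟩
        intro y hy
        rcases List.mem_cons.1 hy with h5 | h5
        · rw [h5]
          exact h4
        · exact h2 y h5
      · refine ⟨[b], l2, by rw [h1, List.singleton_append], h2, ?_⟩
        intro x hx
        simp only [List.getLast?_singleton, Option.mem_some_iff] at hx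
        rw [← hx]
        exact h4
    | cons c s =>
      refine ⟨b :: c :: s, l2, by rw [h1]; rfl, h2, ?_⟩
      intro x hx
      refine h3 x ?_
      rw [List.getLast?_cons_cons] at hx
      exact hx

/-- the Hamilton path -/
theorem path78 {R : V → V → Prop} (hT : AE32.Tour R) (K : Finset V) (σ : V → ℕ) :
    Set.InjOn σ (K : Set V) →
    ∃ l : List V, l.Nodup ∧ (∀ x, x ∈ l ↔ x ∈ K) ∧ l.IsChain R ∧ l.Pairwise (fun x y => R x y ∨ σ x < σ y) := by
  refine Finset.induction_on_max_value σ K ?_ ?_
  · exact fun _ => ⟨[], by simp, by simp, by simp, by simp⟩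
  · intro a s has hmax ih hinj
    obtain ⟨l, l1, l2, l3, l4⟩ := ih (hinj.mono (by rw [coe_insert]; exact Set.subset_insert _ _))
    have hal : a ∉ l := fun h => has ((l2 a).1 h)
    have hlt : ∀ x ∈ l, σ x < σ a := by
      intro x hx
      have hxs := (l2 x).1 hx
      refine lt_of_le_of_ne (hmax x hxs) (fun h => ?_)
      have := hinj (mem_coe.2 (mem_insert_of_mem hxs)) (mem_coe.2 (mem_insert_self a s)) h
      exact has (this ▸ hxs)
    obtain ⟨p, q, h1, h2, h3⟩ := split78 hT a l hal
    have hperm : (p ++ a :: q).Perm (a :: l) := by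
      rw [h1]
      exact List.perm_middle
    rw [h1, List.isChain_append] at l3
    rw [h1, List.pairwise_append] at l4
    refine ⟨p ++ a :: q, ?_, fun x => ?_, ?_, ?_⟩
    · rw [hperm.nodup_iff, List.nodup_cons]
      exact ⟨hal, l1⟩
    · rw [hperm.mem_iff, List.mem_cons, mem_insert, l2]
    · rw [List.isChain_append]
      refine ⟨l3.1, ?_, ?_⟩
      · rw [List.isChain_cons]
        exact ⟨fun y hy => h2 y (List.mem_of_mem_head? hy), l3.2.1⟩
      · intro x hx y hy
        simp only [List.head?_cons, Option.mem_some_iff] at hy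
        rw [← hy]
        exact h3 x hx
    · rw [List.pairwise_append]
      refine ⟨l4.1, ?_, ?_⟩
      · rw [List.pairwise_cons]
        exact ⟨fun y hy => Or.inl (h2 y hy), l4.2.1⟩
      · intro x hx y hy
        rcases List.mem_cons.1 hy with h5 | h5
        · rw [h5]
          exact Or.inr (hlt x (by rw [h1]; exact List.mem_append_left _ hx))
        · exact l4.2.2 x hx y h5

theorem exists_ord {R : V → V → Prop} (hT : AE32.Tour R) (K : Finset V) (m : ℕ) (σ : V → ℕ)
    (hσ : Set.InjOn σ (K : Set V))
    (hm : ∀ x ∈ K, (K.filter (fun y => σ y < σ x ∧ R x y ∨ σ x < σ y ∧ R y x)).card ≤ m) [Nonempty V] :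
    ∃ e : ℕ → V, Ord R K m K.card e := by
  obtain ⟨l, l1, l2, l3, l4⟩ := path78 hT K σ hσ
  have hlen : l.length = K.card := by
    have h5 : l.toFinset = K := by
      ext x
      rw [List.mem_toFinset, l2]
    rw [← h5, List.toFinset_card_of_nodup l1]
  have hget : ∀ i (hi : i < l.length), l.getD i (Classical.arbitrary V) = l[i] := by
    intro i hi
    rw [List.getD_eq_getElem _ _ hi]
  have hmem : ∀ i < K.card, l.getD i (Classical.arbitrary V) ∈ K := by
    intro i hi
    rw [← hlen] at hi
    rw [hget i hi, ← l2]
    exact List.getElem_mem hi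
  have hinj : Set.InjOn (fun i => l.getD i (Classical.arbitrary V)) (range K.card : Set ℕ) := by
    intro i hi j hj hij
    rw [mem_coe, mem_range, ← hlen] at hi hj
    simp only at hij
    rw [hget i hi, hget j hj] at hij
    exact (l1.getElem_inj_iff).1 hij
  refine ⟨fun i => l.getD i (Classical.arbitrary V), hinj, ?_, ?_, ?_⟩
  · refine eq_of_subset_of_card_le ?_ ?_
    · intro x hx
      obtain ⟨i, hi, rfl⟩ := mem_image.1 hx
      exact hmem i (mem_range.1 hi)
    · rw [card_image_of_injOn hinj, card_range]
  · intro i hi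
    rw [← hlen] at hi
    rw [hget i (by omega), hget (i + 1) hi]
    exact List.isChain_iff_getElem.1 l3 i hi
  · intro i hi
    have hp := List.pairwise_iff_getElem.1 l4
    refine le_trans ?_ (hm _ (hmem i hi))
    refine card_le_card_of_injOn (fun i => l.getD i (Classical.arbitrary V)) ?_ ?_
    · intro j hj
      rw [mem_coe, mem_filter, mem_range] at hj
      rw [mem_coe, mem_filter]
      obtain ⟨hj, hj'⟩ := hj
      refine ⟨hmem j hj, ?_⟩
      have hi' : i < l.length := by omega
      have hj0 : j < l.length := by omega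
      simp only at hj' ⊢
      rw [hget i hi', hget j hj0] at hj' ⊢
      rcases hj' with ⟨h5, h6⟩ | ⟨h5, h6⟩
      · rcases hp j i hj0 hi' h5 with h7 | h7
        · exact absurd h6 (hT.asym _ _ h7)
        · exact Or.inl ⟨h7, h6⟩
      · rcases hp i j hi' hj0 h5 with h7 | h7
        · exact absurd h6 (hT.asym _ _ h7)
        · exact Or.inr ⟨h7, h6⟩
    · refine hinj.mono ?_
      intro j hj
      rw [mem_coe, mem_filter] at hj
      exact hj.1

end SPS65
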