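import Pool.Agent.SPS65.Defs

/-!
# Tournaments with few backward arcs: the schedule in one component
-/

set_option autoImplicit false

namespace SPS65

open Finset Relation SPC65
open scoped Classical

variable {V W : Type} {E : W → W → Prop}

theorem upper_trans {F F1 F2 : Finset W} (h1 : Upper E F F1) (h2 : Upper E F1 F2) : Upper E F F2 := by
  refine ⟨h2.1.trans h1.1, fun v hv hv' u hu huv => ?_⟩
  by_cases h : v ∈ F1
  · intro h3
    exact h2.2 v h hv' u (h2.1 h3) huv h3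
  · intro h3
    exact h1.2 v hv h u hu huv (h2.1 h3)

theorem upper_refl (F : Finset W) : Upper E F F := ⟨Subset.refl _, fun v hv hv' => absurd hv hv'⟩

theorem card_split {F F1 F2 : Finset W} (h1 : F1 ⊆ F) (h2 : F2 ⊆ F1) :
    (F \ F2).card = (F \ F1).card + (F1 \ F2).card := by
  have e1 := card_sdiff_add_card_eq_card h1
  have e2 := card_sdiff_add_card_eq_card h2
  have e3 := card_sdiff_add_card_eq_card (h2.trans h1)
  omega

theorem pot_mono {L : ℕ} {A F F' : Finset W} (h : F' ⊆ F) : Pot L A F' ≤ Pot L A F := by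
  unfold Pot
  have h1 := card_le_card (filter_subset_filter (fun u => u ∈ A) h)
  have h2 := min_le_min_right L (card_le_card h)
  omega

theorem pot_erase {L : ℕ} {A F : Finset W} {u : W} (hu : u ∈ F) (h : u ∈ A ∨ F.card ≤ L) :
    Pot L A (F \ {u}) + 1 ≤ Pot L A F := by
  have hc : (F \ {u}).card + 1 = F.card := by
    have := card_sdiff_add_card_eq_card (singleton_subset_iff.2 hu)
    rwa [card_singleton] at this
  rcases h with h | h
  · have h1 : (F \ {u}).filter (fun v => v ∈ A) ⊆ (F.filter (fun v => v ∈ A)).erase u := by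
      intro v hv
      rw [mem_filter, mem_sdiff, mem_singleton] at hv
      rw [mem_erase, mem_filter]
      exact ⟨hv.1.2, hv.1.1, hv.2⟩
    have h2 := card_le_card h1
    have h3 : u ∈ F.filter (fun v => v ∈ A) := mem_filter.2 ⟨hu, h⟩
    rw [card_erase_of_mem h3] at h2
    have h4 : 0 < (F.filter (fun v => v ∈ A)).card := card_pos.2 ⟨u, h3⟩
    have h5 : min (F \ {u}).card L ≤ min F.card L := min_le_min_right L (by omega)
    unfold Pot
    omega
  · have h1 := card_le_card (filter_subset_filter (fun v => v ∈ A) (sdiff_subset (s := F) (t := {u})))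
    unfold Pot
    rw [min_eq_left h, min_eq_left (by omega : (F \ {u}).card ≤ L)]
    omega

theorem fp_mono {F : Finset W} {c : ℕ → W} {ℓ ℓ' : ℕ} (h : FP E F c ℓ) (hl : ℓ' ≤ ℓ) : FP E F c ℓ' :=
  ⟨fun i hi => h.1 i (by omega), h.2.1, fun i hi => h.2.2 i (by omega)⟩

theorem fp_ne {F : Finset W} {c c' : ℕ → W} {ℓ ℓ' : ℕ} (h : FP E F c ℓ) (h' : FP E F c' ℓ') (h0 : c 0 ≠ c' 0) :
    ∀ i < ℓ, ∀ j < ℓ', c i ≠ c' j := by
  intro i
  induction i with
  | zero =>
    intro _ j hj hij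
    cases j with
    | zero => exact h0 hij
    | succ j =>
      have h1 := h'.2.2 j hj
      rw [← hij, h.2.1] at h1
      exact absurd h1.symm (singleton_ne_empty _)
  | succ i ih =>
    intro hi j hj hij
    cases j with
    | zero =>
      have h1 := h.2.2 i hi
      rw [hij, h'.2.1] at h1
      exact absurd h1.symm (singleton_ne_empty _)
    | succ j =>
      have h1 := h.2.2 i hi
      rw [hij, h'.2.2 j hj] at h1
      exact ih (by omega) j (by omega) (singleton_injective h1).symm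

theorem fp_inj {F : Finset W} {c : ℕ → W} {ℓ : ℕ} (h : FP E F c ℓ) : ∀ i < ℓ, ∀ j < ℓ, c i = c j → i = j := by
  intro i
  induction i with
  | zero =>
    intro _ j hj hij
    cases j with
    | zero => rfl
    | succ j =>
      have h1 := h.2.2 j hj
      rw [← hij, h.2.1] at h1
      exact absurd h1.symm (singleton_ne_empty _)
  | succ i ih =>
    intro hi j hj hij
    cases j with
    | zero =>
      have h1 := h.2.2 i hi
      rw [hij, h.2.1] at h1
      exact absurd h1.symm (singleton_ne_empty _)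
    | succ j =>
      have h1 := h.2.2 i hi
      rw [hij, h.2.2 j hj] at h1
      rw [ih (by omega) j (by omega) (singleton_injective h1).symm]

theorem fp_upper {F : Finset W} {c : ℕ → W} {ℓ : ℕ} (h : FP E F c ℓ) : Upper E F (F \ (range ℓ).image c) := by
  refine ⟨sdiff_subset, fun v hv hv' u hu huv => ?_⟩
  have h1 : v ∈ (range ℓ).image c := by
    by_contra h1
    exact hv' (mem_sdiff.2 ⟨hv, h1⟩)
  obtain ⟨i, hi, rfl⟩ := mem_image.1 h1
  rw [mem_range] at hi
  have h4 : u ∈ inn E F (c i) := mem_inn.2 ⟨hu, huv⟩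
  cases i with
  | zero =>
    rw [h.2.1] at h4
    exact absurd h4 (notMem_empty u)
  | succ i =>
    rw [h.2.2 i hi, mem_singleton] at h4
    rw [mem_sdiff, not_and_not_right]
    intro _
    rw [h4]
    exact mem_image_of_mem c (mem_range.2 (by omega))

theorem fp_rest {F U : Finset W} {c : ℕ → W} {ℓ : ℕ} (h : FP E F c ℓ) (hU : ∀ i < ℓ, c i ∉ U) :
    FP E (F \ U) c ℓ := by
  refine ⟨fun i hi => mem_sdiff.2 ⟨h.1 i hi, hU i hi⟩, ?_, fun i hi => ?_⟩
  · rw [← subset_empty, ← h.2.1]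
    exact inn_mono sdiff_subset _
  · apply Subset.antisymm
    · rw [← h.2.2 i hi]
      exact inn_mono sdiff_subset _
    · rw [singleton_subset_iff, mem_inn]
      have h1 : c i ∈ inn E F (c (i + 1)) := by
        rw [h.2.2 i hi]
        exact mem_singleton_self _
      exact ⟨mem_sdiff.2 ⟨h.1 i (by omega), hU i (by omega)⟩, (mem_inn.1 h1).2⟩

theorem fp_shift {F : Finset W} {c : ℕ → W} {a ℓ : ℕ} (h : FP E F c (a + ℓ)) (ha : 0 < a) (hl : 0 < ℓ) :
    FP E (F \ (range a).image c) (fun i => c (a + i)) ℓ := by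
  have hni : ∀ i < ℓ, c (a + i) ∉ (range a).image c := by
    intro i hi h1
    obtain ⟨j, hj, h2⟩ := mem_image.1 h1
    rw [mem_range] at hj
    have := fp_inj h j (by omega) (a + i) (by omega) h2
    omega
  refine ⟨fun i hi => mem_sdiff.2 ⟨h.1 _ (by omega), hni i hi⟩, ?_, fun i hi => ?_⟩
  · show inn E (F \ (range a).image c) (c (a + 0)) = ∅
    have h1 := h.2.2 (a - 1) (by omega)
    rw [show a - 1 + 1 = a + 0 by omega] at h1
    rw [eq_empty_iff_forall_notMem]
    intro x hx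
    rw [mem_inn, mem_sdiff] at hx
    have h2 : x ∈ inn E F (c (a + 0)) := mem_inn.2 ⟨hx.1.1, hx.2⟩
    rw [h1, mem_singleton] at h2
    exact hx.1.2 (by rw [h2]; exact mem_image_of_mem c (mem_range.2 (by omega)))
  · show inn E (F \ (range a).image c) (c (a + (i + 1))) = {c (a + i)}
    have h1 := h.2.2 (a + i) (by omega)
    rw [show a + i + 1 = a + (i + 1) by omega] at h1
    apply Subset.antisymm
    · rw [← h1]
      exact inn_mono sdiff_subset _
    · rw [singleton_subset_iff, mem_inn]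
      have h2 : c (a + i) ∈ inn E F (c (a + (i + 1))) := by
        rw [h1]
        exact mem_singleton_self _
      exact ⟨mem_sdiff.2 ⟨h.1 _ (by omega), hni i (by omega)⟩, (mem_inn.1 h2).2⟩

theorem ch_tail {j : ℕ} {u v w : W} (h : Ch E j u v) (hvw : E v w) : Ch E (j + 1) u w := by
  induction h with
  | zero u => exact Ch.succ 0 u w w hvw (Ch.zero w)
  | succ j u v y huv _ ih => exact Ch.succ (j + 1) u v w huv (ih hvw)

theorem ch_path {F : Finset W} {c : ℕ → W} {ℓ : ℕ} (h : FP E F c ℓ) : ∀ i < ℓ, Ch E i (c 0) (c i) := by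
  intro i
  induction i with
  | zero => exact fun _ => Ch.zero _
  | succ i ih =>
    intro hi
    have h1 : c i ∈ inn E F (c (i + 1)) := by
      rw [h.2.2 i hi]
      exact mem_singleton_self _
    exact ch_tail (ih (by omega)) (mem_inn.1 h1).2

/-- the vertices of a path which starts outside of `Aset` have no other in-neighbours which were in `F₂` -/
theorem clean {F F₂ P : Finset W} {b : ℕ} (hF : F ⊆ F₂) (hP : P ⊆ F₂) (hd : Disjoint P F) {c : ℕ → W} {ℓ : ℕ}
    (hc : FP E F c ℓ) (hl : ℓ ≤ 5 * b) (h0 : c 0 ∉ Aset E b F₂) :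
    ∀ i, 1 ≤ i → i < ℓ → ∀ u ∈ P, ¬ E u (c i) := by
  intro i hi1 hi u hu huc
  obtain ⟨i', rfl⟩ : ∃ i', i = i' + 1 := ⟨i - 1, by omega⟩
  apply h0
  unfold Aset
  rw [mem_filter]
  refine ⟨hF (hc.1 0 (by omega)), i' + 1, by omega, c (i' + 1), hF (hc.1 _ hi), ?_, ch_path hc _ hi⟩
  have h1 : c i' ∈ inn E F (c (i' + 1)) := by
    rw [hc.2.2 i' hi]
    exact mem_singleton_self _
  have h2 : c i' ∈ inn E F₂ (c (i' + 1)) := inn_mono hF _ h1
  have h3 : u ∈ inn E F₂ (c (i' + 1)) := mem_inn.2 ⟨hP hu, huc⟩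
  have h4 : u ≠ c i' := by
    rintro rfl
    exact disjoint_left.1 hd hu (hc.1 i' (by omega))
  have h5 : ({u, c i'} : Finset W) ⊆ inn E F₂ (c (i' + 1)) := by
    intro x hx
    rw [mem_insert, mem_singleton] at hx
    rcases hx with rfl | rfl
    · exact h3
    · exact h2
  have h6 := card_le_card h5
  rwa [card_pair h4] at h6

theorem sch_sub {bad : ℕ → Finset ℕ} {D h s : ℕ} {F F' B : Finset W} {g : W → ℕ}
    (hS : Sch E bad D h s F F' B g) : B ⊆ F \ F' ∧ F' ⊆ F := by
  induction hS with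
  | nil s F g _ => exact ⟨empty_subset _, Subset.refl _⟩
  | ind s ℓ F U F' B g _ _ _ _ ih =>
    refine ⟨ih.1.trans ?_, ih.2.trans sdiff_subset⟩
    intro x hx
    rw [mem_sdiff, mem_sdiff] at hx
    exact mem_sdiff.2 ⟨hx.1.1, hx.2⟩
  | path s ℓ F F' B g c _ hc _ _ _ ih =>
    refine ⟨union_subset (ih.1.trans ?_) ?_, ih.2.trans sdiff_subset⟩
    · intro x hx
      rw [mem_sdiff, mem_sdiff] at hx
      exact mem_sdiff.2 ⟨hx.1.1, hx.2⟩
    · intro x hx
      obtain ⟨i, hi, rfl⟩ := mem_image.1 hx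
      rw [mem_range] at hi
      refine mem_sdiff.2 ⟨hc.1 i hi, fun h1 => ?_⟩
      exact (mem_sdiff.1 (ih.2 h1)).2 hx

theorem sch_congr {bad : ℕ → Finset ℕ} {D h s : ℕ} {F F' B : Finset W} {g : W → ℕ}
    (hS : Sch E bad D h s F F' B g) : ∀ g' : W → ℕ, (∀ y ∈ B, g' y = g y) → Sch E bad D h s F F' B g' := by
  induction hS with
  | nil s F g h1 => exact fun g' _ => Sch.nil s F g' h1
  | ind s ℓ F U F' B g h1 h2 h3 _ ih => exact fun g' hg' => Sch.ind s ℓ F U F' B g' h1 h2 h3 (ih g' hg')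
  | path s ℓ F F' B g c h1 h2 h3 h4 _ ih =>
    intro g' hg'
    refine Sch.path s ℓ F F' B g' c h1 h2 (fun i hi => ?_) (fun i hi y hy hiy => ?_)
      (ih g' (fun y hy => hg' y (mem_union_left _ hy)))
    · rw [hg' _ (mem_union_right _ (mem_image_of_mem c (mem_range.2 hi))), h3 i hi]
    · rw [hg' _ (mem_union_left _ hy)]
      exact h4 i hi y hy hiy

theorem choose_pos {bad : ℕ → Finset ℕ} {Δ m : ℕ} (hin : ∀ w, ∀ S : Finset W, (∀ v ∈ S, E v w) → S.card ≤ Δ)
    (hbm : ∀ i, (bad i).card ≤ m) (P : Finset W) (g : W → ℕ) (y : W) (s b : ℕ) :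
    ∃ ℓ, b ≤ ℓ ∧ ℓ ≤ b + Δ * m ∧ ∀ u ∈ P, E u y → s + ℓ ∉ bad (g u) := by
  obtain ⟨X, hX⟩ : ∃ X, X = (P.filter (fun u => E u y)).biUnion (fun u => bad (g u)) := ⟨_, rfl⟩
  have h1 : X.card ≤ Δ * m := by
    rw [hX]
    refine card_biUnion_le.trans ((sum_le_sum fun u _ => hbm (g u)).trans ?_)
    rw [sum_const, smul_eq_mul]
    exact Nat.mul_le_mul_right m (hin y _ (fun v hv => (mem_filter.1 hv).2))
  have h2 : X.card < ((Icc b (b + Δ * m)).image (fun ℓ => s + ℓ)).card := by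
    rw [card_image_of_injective _ (fun a b h => by simpa using h), Nat.card_Icc]
    omega
  obtain ⟨p, hp1, hp2⟩ := exists_mem_notMem_of_card_lt_card h2
  obtain ⟨ℓ, hℓ, rfl⟩ := mem_image.1 hp1
  rw [mem_Icc] at hℓ
  refine ⟨ℓ, hℓ.1, hℓ.2, fun u hu huy h3 => hp2 ?_⟩
  rw [hX, mem_biUnion]
  exact ⟨u, mem_filter.2 ⟨hu, huy⟩, h3⟩

/-- the conclusion -/
def Concl (E : W → W → Prop) (bad : ℕ → Finset ℕ) (D h b L : ℕ) (A : Finset W) (r s : ℕ) (F P : Finset W)
    (g₀ : W → ℕ) : Prop :=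
  ∃ (F' B : Finset W) (g : W → ℕ), Upper E F F' ∧ Sch E bad D h s F F' B g ∧
    (∀ u ∈ P, ∀ y ∈ B, E u y → g y ∉ bad (g₀ u)) ∧
    (F' = ∅ ∨ r + 3 * b * Pot L A F' ≤ (F \ F').card + 3 * b * Pot L A F)

theorem concl_nil {bad : ℕ → Finset ℕ} {D h b L : ℕ} {A : Finset W} {s : ℕ} {F P : Finset W} {g₀ : W → ℕ}
    (hs : s ≤ h) : Concl E bad D h b L A 0 s F P g₀ :=
  ⟨F, ∅, g₀, upper_refl F, Sch.nil s F g₀ hs, fun _ _ y hy => absurd hy (notMem_empty y), Or.inr (by simp)⟩

theorem concl_empty {bad : ℕ → Finset ℕ} {D h b L : ℕ} {A : Finset W} {r s : ℕ} {P : Finset W} {g₀ : W → ℕ}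
    (hs : s ≤ h) : Concl E bad D h b L A r s ∅ P g₀ :=
  ⟨∅, ∅, g₀, upper_refl ∅, Sch.nil s ∅ g₀ hs, fun _ _ y hy => absurd hy (notMem_empty y), Or.inl rfl⟩

theorem step_ind {bad : ℕ → Finset ℕ} {D h b L : ℕ} {A : Finset W} {r s ℓ : ℕ} {F P U : Finset W} {g₀ : W → ℕ}
    (hU : U ⊆ src E F) (hc : U.card ≤ ℓ) (h2 : 2 * D ≤ ℓ)
    (hloss : ℓ + 3 * b * Pot L A (F \ U) ≤ U.card + 3 * b * Pot L A F)
    (hrec : Concl E bad D h b L A r (s + ℓ) (F \ U) P g₀) : Concl E bad D h b L A (ℓ + r) s F P g₀ := by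
  obtain ⟨F', B, g, g1, g2, g3, g4⟩ := hrec
  have hUF : U ⊆ F := hU.trans (filter_subset _ _)
  have hup := upper_src hU
  refine ⟨F', B, g, upper_trans hup g1, Sch.ind s ℓ F U F' B g hU hc h2 g2, g3, ?_⟩
  rcases g4 with g4 | g4
  · exact Or.inl g4
  · right
    have h3 := card_split hup.1 g1.1
    rw [Finset.sdiff_sdiff_eq_self hUF] at h3
    omega

theorem step_path {bad : ℕ → Finset ℕ} {D h b L : ℕ} {A : Finset W} {r s ℓ : ℕ} {F P : Finset W} {g₀ : W → ℕ}
    {c : ℕ → W} (hℓ : 0 < ℓ) (hc : FP E F c ℓ) (hd : Disjoint P F)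
    (hst : ∀ u ∈ P, E u (c 0) → s ∉ bad (g₀ u)) (hcl : ∀ i, 1 ≤ i → i < ℓ → ∀ u ∈ P, ¬ E u (c i))
    (hrec : Concl E bad D h b L A r (s + ℓ) (F \ (range ℓ).image c) (P ∪ (range ℓ).image c)
      (fun w => if w ∈ P then g₀ w else s + sInf {i | c i = w})) : Concl E bad D h b L A (ℓ + r) s F P g₀ := by
  have hidx : ∀ i < ℓ, sInf {j | c j = c i} = i := by
    intro i hi
    have h1 : sInf {j | c j = c i} ≤ i := Nat.sInf_le rfl
    have h2 : c (sInf {j | c j = c i}) = c i := Nat.sInf_mem (s := {j | c j = c i}) ⟨i, rfl⟩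
    exact fp_inj hc _ (by omega) i hi h2
  obtain ⟨F', B, g, g1, g2, g3, g4⟩ := hrec
  have hsub := (sch_sub g2).1
  have hup := fp_upper hc
  have hBi : ∀ y ∈ B, y ∉ (range ℓ).image c := fun y hy => (mem_sdiff.1 (mem_sdiff.1 (hsub hy)).1).2
  obtain ⟨g', hg'⟩ : ∃ g' : W → ℕ, g' = fun w => if w ∈ (range ℓ).image c then s + sInf {i | c i = w} else g w :=
    ⟨_, rfl⟩
  have hg1 : ∀ y ∈ B, g' y = g y := by
    intro y hy
    rw [hg']
    exact if_neg (hBi y hy)
  have hg2 : ∀ i < ℓ, g' (c i) = s + i := by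
    intro i hi
    rw [hg']
    show (if c i ∈ (range ℓ).image c then s + sInf {j | c j = c i} else g (c i)) = s + i
    rw [if_pos (mem_image_of_mem c (mem_range.2 hi)), hidx i hi]
  refine ⟨F', B ∪ (range ℓ).image c, g', upper_trans hup g1, ?_, ?_, ?_⟩
  · refine Sch.path s ℓ F F' B g' c hℓ hc hg2 (fun i hi y hy hiy => ?_) (sch_congr g2 g' hg1)
    have h1 := g3 (c i) (mem_union_right _ (mem_image_of_mem c (mem_range.2 hi))) y hy hiy
    have h2 : c i ∉ P := fun h => disjoint_left.1 hd h (hc.1 i hi)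
    simp only [if_neg h2, hidx i hi] at h1
    rwa [hg1 y hy]
  · intro u hu y hy huy
    rcases mem_union.1 hy with hy | hy
    · have h1 := g3 u (mem_union_left _ hu) y hy huy
      simp only [if_pos hu] at h1
      rwa [hg1 y hy]
    · obtain ⟨i, hi, rfl⟩ := mem_image.1 hy
      rw [mem_range] at hi
      rcases Nat.eq_zero_or_pos i with rfl | hi0
      · rw [hg2 0 hi]
        exact hst u hu huy
      · exact absurd huy (hcl i hi0 hi u hu)
  · rcases g4 with g4 | g4
    · exact Or.inl g4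
    · right
      have h3 := card_split hup.1 g1.1
      have h4 : (F \ (F \ (range ℓ).image c)).card = ℓ := by
        have h5 : (range ℓ).image c ⊆ F := by
          intro x hx
          obtain ⟨i, hi, rfl⟩ := mem_image.1 hx
          exact hc.1 i (mem_range.1 hi)
        rw [Finset.sdiff_sdiff_eq_self h5, card_image_of_injOn, card_range]
        intro i hi j hj hij
        rw [mem_coe, mem_range] at hi hj
        exact fp_inj hc i hi j hj hij
      have h5 := Nat.mul_le_mul_left (3 * b) (pot_mono (L := L) (A := A) hup.1)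
      omega

end SPS65
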