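import Pool.Agent.SPS65.Stage
import Pool.Agent.SPS65.Few
import Pool.Agent.SPS65.Pot

/-!
# Tournaments with few backward arcs: the schedule in one component
-/

set_option autoImplicit false

namespace SPS65

open Finset Relation SPC65
open scoped Classical

variable {V W : Type} {E : W → W → Prop}

/-- a source exists -/
theorem exists_src (hE : ∀ a b, E a b → ¬ E b a) (hG : (SimpleGraph.fromRel E).IsAcyclic) {F : Finset W}
    (hF : F.Nonempty) : ∃ u, u ∈ src E F := by
  have h1 := mu_lt hE hG hF
  have h2 : (src E F).Nonempty := card_pos.1 (by omega)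
  exact h2

/-- either the next step is possible at any position, or there is a long path -/
theorem dich {b Δ L : ℕ} (hb1 : 1 ≤ b) {ht : W → ℕ} (hht : ∀ a b, E a b → ht a < ht b)
    (hout : ∀ u, ∀ S : Finset W, (∀ v ∈ S, E u v) → S.card ≤ Δ)
    (hL : L = 5 * b * (5 * b * (Δ + 1) ^ (5 * b))) {F F₂ : Finset W} (hF : F ⊆ F₂) :
    (4 * b ≤ (src E F).card ∨ (∃ u ∈ src E F, u ∈ Aset E b F₂) ∨ F.card ≤ L) ∨ ∃ c : ℕ → W, FP E F c (5 * b) := by
  by_cases h1 : 4 * b ≤ (src E F).card
  · exact Or.inl (Or.inl h1)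
  by_cases h2 : ∃ u ∈ src E F, u ∈ Aset E b F₂
  · exact Or.inl (Or.inr (Or.inl h2))
  rcases few hb1 hht hout (not_le.1 h1) (fun u hu hu' => h2 ⟨u, hu, aset_mono hF hu'⟩) with h3 | h3
  · exact Or.inr h3
  · rw [← hL] at h3
    exact Or.inl (Or.inr (Or.inr h3))

theorem good_of {bad : ℕ → Finset ℕ} {b L : ℕ} {A : Finset W} {s : ℕ} {F P : Finset W} {g : W → ℕ}
    (h : 4 * b ≤ (src E F).card ∨ (∃ u ∈ src E F, u ∈ A) ∨ F.card ≤ L) : Good E bad b L A s F P g := by
  rcases h with h | h | h
  · exact Or.inl h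
  · exact Or.inr (Or.inl h)
  · exact Or.inr (Or.inr (Or.inl h))

theorem claim2 {bad : ℕ → Finset ℕ} {b Δ m h L : ℕ} (hE : ∀ a b, E a b → ¬ E b a)
    (hG : (SimpleGraph.fromRel E).IsAcyclic) {ht : W → ℕ} (hht : ∀ a b, E a b → ht a < ht b)
    (hin : ∀ w, ∀ S : Finset W, (∀ v ∈ S, E v w) → S.card ≤ Δ)
    (hout : ∀ u, ∀ S : Finset W, (∀ v ∈ S, E u v) → S.card ≤ Δ)
    (hbm : ∀ i, (bad i).card ≤ m) (hbc : ∀ i, i + 1 ∉ bad i) (hb : 2 * (Δ * m) ≤ b) (hb1 : 1 ≤ b)
    (hL : L = 5 * b * (5 * b * (Δ + 1) ^ (5 * b))) {F₂ A : Finset W} (hA : A = Aset E b F₂) :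
    ∀ r s : ℕ, ∀ (F P : Finset W) (g₀ : W → ℕ), s + r = h → b ≤ r → F ⊆ F₂ → P ⊆ F₂ → Disjoint P F →
      Good E bad b L A s F P g₀ → Concl E bad (Δ * m) h b L A r s F P g₀ := by
  intro r
  induction r using Nat.strong_induction_on with
  | _ r ih =>
    intro s F P g₀ hs hr hF hP hd hgood
    have hrec : ∀ ℓ, b ≤ ℓ → b + ℓ ≤ r → ∀ (F' P' : Finset W) (g' : W → ℕ), F' ⊆ F₂ → P' ⊆ F₂ → Disjoint P' F' →
        Good E bad b L A (s + ℓ) F' P' g' → Concl E bad (Δ * m) h b L A (r - ℓ) (s + ℓ) F' P' g' := by
      intro ℓ h1 h2 F' P' g' h3 h4 h5 h6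
      exact ih (r - ℓ) (by omega) (s + ℓ) F' P' g' (by omega) (by omega) h3 h4 h5 h6
    have hlast : ∀ (F' P' : Finset W) (g' : W → ℕ), Concl E bad (Δ * m) h b L A 0 (s + r) F' P' g' :=
      fun F' P' g' => concl_nil (by omega)
    -- the continuation from a block of independent sources
    have hone : ∀ u ∈ src E F, (u ∈ A ∨ F.card ≤ L) → Concl E bad (Δ * m) h b L A r s F P g₀ := by
      intro u hu hu'
      have huF : u ∈ F := (mem_filter.1 hu).1
      have hp := pot_erase (L := L) (A := A) huF hu'
      have hp2 := Nat.mul_le_mul_left (3 * b) hp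
      rw [Nat.mul_add, Nat.mul_one] at hp2
      have hsub : F \ {u} ⊆ F := sdiff_subset
      have hd' : Disjoint P (F \ {u}) := hd.mono_right hsub
      by_cases hr3 : r < 3 * b
      · have h1 := step_ind (r := 0) (ℓ := r) (U := {u}) (singleton_subset_iff.2 hu)
          (by rw [card_singleton]; omega) (by omega) (by rw [card_singleton]; omega) (hlast (F \ {u}) P g₀)
        rwa [Nat.add_zero] at h1
      · rcases dich hb1 hht hout hL (hsub.trans hF) with h1 | ⟨c, hc⟩
        · have h2 := step_ind (r := r - b) (ℓ := b) (U := {u}) (singleton_subset_iff.2 hu)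
            (by rw [card_singleton]; omega) (by omega) (by rw [card_singleton]; omega)
            (hrec b le_rfl (by omega) (F \ {u}) P g₀ (hsub.trans hF) hP hd' (good_of (by rw [hA]; exact h1)))
          rwa [Nat.add_sub_cancel' hr] at h2
        · obtain ⟨ℓ, h1, h2, h3⟩ := choose_pos (E := E) hin hbm P g₀ (c 0) s b
          have h4 := step_ind (r := r - ℓ) (ℓ := ℓ) (U := {u}) (singleton_subset_iff.2 hu)
            (by rw [card_singleton]; omega) (by omega) (by rw [card_singleton]; omega)
            (hrec ℓ h1 (by omega) (F \ {u}) P g₀ (hsub.trans hF) hP hd'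
              (Or.inr (Or.inr (Or.inr ⟨c, fp_mono hc (by omega), h3⟩))))
          rwa [Nat.add_sub_cancel' (by omega)] at h4
    rcases F.eq_empty_or_nonempty with hF0 | hF0
    · subst hF0
      exact concl_empty (by omega)
    by_cases hmany : 4 * b ≤ (src E F).card
    · -- many sources
      by_cases hr3 : r < 3 * b
      · obtain ⟨U, hU1, hU2⟩ := exists_subset_card_eq (show r ≤ (src E F).card by omega)
        have hp := Nat.mul_le_mul_left (3 * b) (pot_mono (L := L) (A := A) (sdiff_subset (s := F) (t := U)))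
        have h1 := step_ind (r := 0) (ℓ := r) hU1 hU2.le (by omega) (by omega) (hlast (F \ U) P g₀)
        rwa [Nat.add_zero] at h1
      · obtain ⟨U, hU1, hU2⟩ := exists_subset_card_eq (show b ≤ (src E F).card by omega)
        have hsub : F \ U ⊆ F := sdiff_subset
        rcases dich hb1 hht hout hL (hsub.trans hF) with h1 | ⟨c, hc⟩
        · have hp := Nat.mul_le_mul_left (3 * b) (pot_mono (L := L) (A := A) hsub)
          have h2 := step_ind (r := r - b) (ℓ := b) hU1 hU2.le (by omega) (by omega)
            (hrec b le_rfl (by omega) (F \ U) P g₀ (hsub.trans hF) hP (hd.mono_right hsub)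
              (good_of (by rw [hA]; exact h1)))
          rwa [Nat.add_sub_cancel' hr] at h2
        · obtain ⟨ℓ, h1, h2, h3⟩ := choose_pos (E := E) hin hbm P g₀ (c 0) s b
          have hcU : c 0 ∉ U := (mem_sdiff.1 (hc.1 0 (by omega))).2
          have h4 : U ⊆ (src E F).erase (c 0) := fun x hx => mem_erase.2 ⟨fun h => hcU (h ▸ hx), hU1 hx⟩
          have h5 : ℓ ≤ ((src E F).erase (c 0)).card := by
            have := pred_card_le_card_erase (s := src E F) (a := c 0)
            omega
          obtain ⟨U', h6, h7, h8⟩ := exists_subsuperset_card_eq h4 (by omega) h5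
          have hU' : U' ⊆ src E F := h7.trans (erase_subset _ _)
          have hsub' : F \ U' ⊆ F := sdiff_subset
          have hp := Nat.mul_le_mul_left (3 * b) (pot_mono (L := L) (A := A) hsub')
          have hc' : FP E (F \ U') c (3 * b) := by
            have h9 : F \ U' = (F \ U) \ U' := by
              ext x
              rw [mem_sdiff, mem_sdiff, mem_sdiff]
              exact ⟨fun h => ⟨⟨h.1, fun h' => h.2 (h6 h')⟩, h.2⟩, fun h => ⟨h.1.1, h.2⟩⟩
            rw [h9]
            refine fp_rest (fp_mono hc (by omega)) (fun i hi h10 => ?_)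
            have h11 := h7 h10
            rw [mem_erase] at h11
            rcases Nat.eq_zero_or_pos i with rfl | hi0
            · exact h11.1 rfl
            · have h12 := hc.2.2 (i - 1) (by omega)
              rw [show i - 1 + 1 = i by omega] at h12
              have h13 : c (i - 1) ∈ inn E (F \ U) (c i) := by rw [h12]; exact mem_singleton_self _
              have h14 := inn_mono hsub (c i) h13
              unfold src at h11
              rw [mem_filter] at h11
              rw [h11.2.2] at h14
              exact absurd h14 (notMem_empty _)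
          have h9 := step_ind (r := r - ℓ) (ℓ := ℓ) hU' h8.le (by omega) (by omega)
            (hrec ℓ h1 (by omega) (F \ U') P g₀ (hsub'.trans hF) hP (hd.mono_right hsub')
              (Or.inr (Or.inr (Or.inr ⟨c, hc', h3⟩))))
          rwa [Nat.add_sub_cancel' (by omega)] at h9
    by_cases hAs : ∃ u ∈ src E F, u ∈ A
    · obtain ⟨u, hu, huA⟩ := hAs
      exact hone u hu (Or.inl huA)
    by_cases hFL : F.card ≤ L
    · obtain ⟨u, hu⟩ := exists_src hE hG hF0
      exact hone u hu (Or.inr hFL)
    -- few sources, long paths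
    have hstate : ¬ (4 * b ≤ (src E F).card ∨ (∃ u ∈ src E F, u ∈ Aset E b F₂) ∨ F.card ≤ L) := by
      rw [← hA]
      rintro (h1 | h1 | h1)
      · exact hmany h1
      · exact hAs h1
      · exact hFL h1
    obtain ⟨c', hc'⟩ := (dich hb1 hht hout hL hF).resolve_left hstate
    obtain ⟨c, hc, hcs⟩ : ∃ c : ℕ → W, FP E F c (3 * b) ∧ ∀ u ∈ P, E u (c 0) → s ∉ bad (g₀ u) := by
      rcases hgood with h1 | h1 | h1 | h1
      · exact absurd h1 hmany
      · exact absurd h1 hAs
      · exact absurd h1 hFL
      · exact h1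
    have hnA : ∀ {c : ℕ → W} {ℓ : ℕ}, FP E F c ℓ → 0 < ℓ → c 0 ∉ Aset E b F₂ := by
      intro c ℓ hc hℓ h1
      apply hAs
      refine ⟨c 0, ?_, by rw [hA]; exact h1⟩
      unfold src
      rw [mem_filter]
      exact ⟨hc.1 0 hℓ, hc.2.1⟩
    -- a path block
    have hpath : ∀ (c : ℕ → W) (ℓ k : ℕ), 0 < ℓ → ℓ ≤ k → k ≤ 5 * b → FP E F c k → ℓ ≤ r →
        (∀ u ∈ P, E u (c 0) → s ∉ bad (g₀ u)) →
        Concl E bad (Δ * m) h b L A (r - ℓ) (s + ℓ) (F \ (range ℓ).image c) (P ∪ (range ℓ).image c)
          (fun w => if w ∈ P then g₀ w else s + sInf {i | c i = w}) →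
        Concl E bad (Δ * m) h b L A r s F P g₀ := by
      intro c ℓ k h0 h1 h2 h3 h4 h5 h6
      have h7 := step_path h0 (fp_mono h3 h1) hd h5
        (clean hF hP hd (fp_mono h3 h1) (by omega) (hnA h3 (by omega))) h6
      rwa [Nat.add_sub_cancel' h4] at h7
    have himF : ∀ (c : ℕ → W) (ℓ k : ℕ), ℓ ≤ k → FP E F c k → (range ℓ).image c ⊆ F := by
      intro c ℓ k h1 h2 x hx
      obtain ⟨i, hi, rfl⟩ := mem_image.1 hx
      rw [mem_range] at hi
      exact h2.1 i (by omega)
    have hdis : ∀ (c : ℕ → W) (ℓ : ℕ), Disjoint (P ∪ (range ℓ).image c) (F \ (range ℓ).image c) := by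
      intro c ℓ
      rw [disjoint_union_left]
      exact ⟨hd.mono_right sdiff_subset, disjoint_sdiff⟩
    by_cases hr3 : r < 3 * b
    · refine hpath c r (3 * b) (by omega) (by omega) (by omega) hc le_rfl hcs ?_
      rw [Nat.sub_self]
      exact concl_nil (by omega)
    · by_cases h0 : c' 0 = c 0
      · refine hpath c' b (5 * b) (by omega) (by omega) le_rfl hc' hr (by rw [h0]; exact hcs) ?_
        refine hrec b le_rfl (by omega) _ _ _ (sdiff_subset.trans hF)
          (union_subset hP ((himF c' b (5 * b) (by omega) hc').trans hF)) (hdis c' b) ?_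
        right; right; right
        refine ⟨fun i => c' (b + i), fp_shift (fp_mono hc' (by omega)) (by omega) (by omega), ?_⟩
        intro u hu huc
        have huc' : E u (c' b) := huc
        rcases mem_union.1 hu with hu | hu
        · exact absurd huc' (clean hF hP hd hc' le_rfl (hnA hc' (by omega)) b hb1 (by omega) u hu)
        · obtain ⟨j, hj, rfl⟩ := mem_image.1 hu
          rw [mem_range] at hj
          have h1 : c' j ∈ inn E F (c' b) := mem_inn.2 ⟨hc'.1 j (by omega), huc'⟩
          have h2 := hc'.2.2 (b - 1) (by omega)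
          rw [show b - 1 + 1 = b by omega] at h2
          rw [h2, mem_singleton] at h1
          have h3 := fp_inj hc' j (by omega) (b - 1) (by omega) h1
          have h4 : c' j ∉ P := fun h => disjoint_left.1 hd h (hc'.1 j (by omega))
          have h5 : sInf {i | c' i = c' j} = j := by
            have h6 : sInf {i | c' i = c' j} ≤ j := Nat.sInf_le rfl
            have h7 : c' (sInf {i | c' i = c' j}) = c' j := Nat.sInf_mem (s := {i | c' i = c' j}) ⟨j, rfl⟩
            exact fp_inj hc' _ (by omega) j (by omega) h7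
          simp only [if_neg h4, h5]
          have h6 := hbc (s + j)
          rwa [show s + j + 1 = s + b by omega] at h6
      · obtain ⟨ℓ, h1, h2, h3⟩ := choose_pos (E := E) hin hbm P g₀ (c' 0) s b
        have hni : ∀ i < 5 * b, c' i ∉ (range ℓ).image c := by
          intro i hi h4
          obtain ⟨j, hj, h5⟩ := mem_image.1 h4
          rw [mem_range] at hj
          exact fp_ne hc hc' (fun h => h0 h.symm) j (by omega) i hi h5
        refine hpath c ℓ (3 * b) (by omega) (by omega) (by omega) hc (by omega) hcs ?_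
        refine hrec ℓ h1 (by omega) _ _ _ (sdiff_subset.trans hF)
          (union_subset hP ((himF c ℓ (3 * b) (by omega) hc).trans hF)) (hdis c ℓ) ?_
        right; right; right
        refine ⟨c', fp_mono (fp_rest hc' hni) (by omega), ?_⟩
        intro u hu huc
        rcases mem_union.1 hu with hu' | hu'
        · simp only [if_pos hu']
          exact h3 u hu' huc
        · exfalso
          have h4 : u ∈ inn E F (c' 0) := mem_inn.2 ⟨himF c ℓ (3 * b) (by omega) hc hu', huc⟩
          rw [hc'.2.1] at h4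
          exact notMem_empty u h4

end SPS65
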